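import Mathlib

/-!
# Cocompact discontinuous groups for homogeneous spaces: definitions
-/

namespace Pool.Agent.Helper40.CK

/-- `Γ` is a discontinuous group for `G ⧸ H`: it is a discrete subgroup of `G` and acts on `G ⧸ H`
by left translation freely and properly discontinuously (for every compact `K` only finitely many
`γ` in `Γ` satisfy `γ K ∩ K ≠ ∅`). -/
structure IsDiscontinuousGroup {G : Type} [Group G] [TopologicalSpace G]
    (Γ H : Subgroup G) : Prop where
  discrete : DiscreteTopology Γ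
  free : ∀ γ ∈ Γ, ∀ x : G ⧸ H, γ • x = x → γ = 1
  proper : ∀ K : Set (G ⧸ H), IsCompact K → {γ : G | γ ∈ Γ ∧ ∃ x ∈ K, γ • x ∈ K}.Finite

/-- `Γ` is a cocompact discontinuous group for `G ⧸ H`: moreover the quotient space
`Γ \ (G ⧸ H)` is compact. -/
structure IsCocompactDiscontinuousGroup {G : Type} [Group G] [TopologicalSpace G]
    (Γ H : Subgroup G) : Prop extends IsDiscontinuousGroup Γ H where
  compact : CompactSpace (MulAction.orbitRel.Quotient Γ (G ⧸ H))

/-- `G ⧸ H` admits a cocompact discontinuous group. -/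
def AdmitsCocompact {G : Type} [Group G] [TopologicalSpace G] (H : Subgroup G) : Prop :=
  ∃ Γ : Subgroup G, IsCocompactDiscontinuousGroup Γ H

section General

variable {G : Type} [Group G] [TopologicalSpace G] [IsTopologicalGroup G]

omit [IsTopologicalGroup G] in
theorem finite_two {Γ H : Subgroup G} (h : ∀ K : Set (G ⧸ H), IsCompact K →
    {γ : G | γ ∈ Γ ∧ ∃ x ∈ K, γ • x ∈ K}.Finite) {K K' : Set (G ⧸ H)} (hK : IsCompact K)
    (hK' : IsCompact K') : {γ : G | γ ∈ Γ ∧ ∃ x ∈ K, γ • x ∈ K'}.Finite := by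
  refine (h (K ∪ K') (hK.union hK')).subset ?_
  rintro γ ⟨hγ, x, hx, hy⟩
  exact ⟨hγ, x, Or.inl hx, Or.inr hy⟩

/-- In a locally compact Hausdorff group, a subgroup acting properly discontinuously on `G ⧸ H`
is discrete. -/
theorem discrete_of_proper [LocallyCompactSpace G] [T2Space G] {Γ H : Subgroup G}
    (h : ∀ K : Set (G ⧸ H), IsCompact K →
      {γ : G | γ ∈ Γ ∧ ∃ x ∈ K, γ • x ∈ K}.Finite) : DiscreteTopology Γ := by
  obtain ⟨C, hC, hC1⟩ := exists_compact_mem_nhds (1 : G)
  have hK : IsCompact ((fun g : G => (g : G ⧸ H)) '' C) := hC.image QuotientGroup.continuous_mk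
  have hfin : {γ : G | γ ∈ Γ ∧ γ ∈ C}.Finite := by
    refine (finite_two h hK hK).subset ?_
    rintro γ ⟨hγ, hγC⟩
    refine ⟨hγ, ((1 : G) : G ⧸ H), ⟨1, mem_of_mem_nhds hC1, rfl⟩, ?_⟩
    refine ⟨γ, hγC, ?_⟩
    show ((γ : G) : G ⧸ H) = ((γ * 1 : G) : G ⧸ H)
    rw [mul_one]
  have hfin2 : {γ : Γ | (γ : G) ∈ C}.Finite := by
    refine Set.Finite.of_finite_image (f := fun γ : Γ => (γ : G)) (hfin.subset ?_)
      (fun a _ b _ hab => Subtype.ext hab)
    rintro _ ⟨γ, hγ, rfl⟩
    exact ⟨γ.2, hγ⟩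
  have hnhds : {γ : Γ | (γ : G) ∈ C} ∈ nhds (1 : Γ) :=
    continuous_subtype_val.continuousAt.preimage_mem_nhds (by simpa using hC1)
  have hop : IsOpen ({1} : Set Γ) := by
    have h1 : ({1} : Set Γ) ∈ nhds (1 : Γ) := by
      have h2 : (({γ : Γ | (γ : G) ∈ C} \ {1} : Set Γ))ᶜ ∈ nhds (1 : Γ) := by
        apply IsOpen.mem_nhds
        · exact (hfin2.subset Set.sdiff_subset).isClosed.isOpen_compl
        · simp
      filter_upwards [hnhds, h2] with γ h3 h4
      by_contra h5
      exact h4 ⟨h3, h5⟩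
    have := mem_nhds_iff.mp h1
    obtain ⟨t, ht, hto, h1t⟩ := this
    have h6 : t = {1} := Set.Subset.antisymm ht (by simpa using h1t)
    rwa [h6] at hto
  exact discreteTopology_of_isOpen_singleton_one hop

/-- Compactness of the quotient `Γ \ (G ⧸ H)` for locally compact `G`. -/
theorem compact_iff [LocallyCompactSpace G] {Γ H : Subgroup G} :
    CompactSpace (MulAction.orbitRel.Quotient Γ (G ⧸ H)) ↔
      ∃ K : Set (G ⧸ H), IsCompact K ∧ ∀ x : G ⧸ H, ∃ γ ∈ Γ, γ • x ∈ K := by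
  constructor
  · intro hc
    have : ContinuousConstSMul Γ (G ⧸ H) :=
      ⟨fun γ => (continuous_const_smul (γ : G) : Continuous fun x : G ⧸ H => (γ : G) • x)⟩
    let p : G ⧸ H → MulAction.orbitRel.Quotient Γ (G ⧸ H) := Quotient.mk''
    have hop : IsOpenMap p := isOpenMap_quotient_mk'_mul
    have hsur : Function.Surjective p := Quotient.mk''_surjective
    choose C hC hCx using fun x : G ⧸ H => exists_compact_mem_nhds x
    have hcov : (Set.univ : Set (MulAction.orbitRel.Quotient Γ (G ⧸ H))) ⊆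
        ⋃ x : G ⧸ H, p '' (interior (C x)) := by
      intro y _
      obtain ⟨x, rfl⟩ := hsur y
      exact Set.mem_iUnion.mpr ⟨x, x, mem_interior_iff_mem_nhds.mpr (hCx x), rfl⟩
    obtain ⟨t, ht⟩ := isCompact_univ.elim_finite_subcover _
      (fun x => hop _ isOpen_interior) hcov
    refine ⟨⋃ x ∈ t, C x, t.isCompact_biUnion fun x _ => hC x, fun x => ?_⟩
    have h1 := ht (Set.mem_univ (p x))
    simp only [Set.mem_iUnion] at h1
    obtain ⟨y, hy, z, hz, hzx⟩ := h1
    have h2 : (MulAction.orbitRel Γ (G ⧸ H)) z x := Quotient.exact hzx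
    rw [MulAction.orbitRel_apply] at h2
    obtain ⟨γ, hγ⟩ := h2
    refine ⟨γ, γ.2, ?_⟩
    simp only [Set.mem_iUnion]
    refine ⟨y, hy, ?_⟩
    have h3 : (γ : G) • x = z := hγ
    rw [h3]
    exact interior_subset hz
  · rintro ⟨K, hK, hcov⟩
    constructor
    have h1 : (Set.univ : Set (MulAction.orbitRel.Quotient Γ (G ⧸ H))) =
        (Quotient.mk'' : G ⧸ H → MulAction.orbitRel.Quotient Γ (G ⧸ H)) '' K := by
      symm
      rw [Set.eq_univ_iff_forall]
      intro y
      obtain ⟨x, rfl⟩ := Quotient.mk''_surjective y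
      obtain ⟨γ, hγ, hx⟩ := hcov x
      refine ⟨γ • x, hx, ?_⟩
      apply Quotient.sound
      show (MulAction.orbitRel Γ (G ⧸ H)) (γ • x) x
      rw [MulAction.orbitRel_apply]
      exact ⟨⟨γ, hγ⟩, rfl⟩
    rw [h1]
    exact hK.image continuous_quot_mk

end General

end Pool.Agent.Helper40.CK
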