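import Mathlib
import Pool.Agent.Helper19.HO.BU

/-!
# MP_bf60c4, project CKP: the ratio of the singular values on an odd family

An odd continuous family of `2 × n` matrices, parametrised by the nonzero vectors of `ℝ^(n+1)`,
takes every value of the ratio `det (B Bᵀ) / (tr (B Bᵀ))^2` between `0` and `1/4`.
-/

namespace Pool.Agent.Helper40.CK

open Pool.Agent.Helper19.HO

/-- The Borsuk-Ulam theorem for the unit ball: a continuous map which is odd on the unit sphere
has a zero. -/
theorem bu_disc {n : ℕ} (g : (Fin n → ℝ) → (Fin n → ℝ)) (hg : Continuous g)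
    (hodd : ∀ x, ‖x‖ = 1 → g (-x) = -g x) : ∃ x, g x = 0 := by
  classical
  -- the two halves
  let S : Type := {y : Fin (n + 1) → ℝ // y ≠ 0}
  let x : (Fin (n + 1) → ℝ) → (Fin n → ℝ) := fun y => Fin.tail y
  let N : (Fin (n + 1) → ℝ) → ℝ := fun y => ‖x y‖ + |y 0|
  have hxc : Continuous x := by
    apply continuous_pi
    intro i
    exact continuous_apply (Fin.succ i)
  have hNc : Continuous N := (hxc.norm).add ((continuous_apply 0).abs)
  have hN : ∀ y : Fin (n + 1) → ℝ, y ≠ 0 → 0 < N y := by
    intro y hy
    by_contra hcon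
    have h1 : 0 ≤ ‖x y‖ := norm_nonneg _
    have h2 : 0 ≤ |y 0| := abs_nonneg _
    have h3 : ‖x y‖ = 0 := by
      have : ‖x y‖ + |y 0| ≤ 0 := not_lt.mp hcon
      linarith
    have h4 : |y 0| = 0 := by
      have : ‖x y‖ + |y 0| ≤ 0 := not_lt.mp hcon
      linarith
    apply hy
    funext i
    refine Fin.cases ?_ ?_ i
    · simpa using h4
    · intro j
      have := congrFun (norm_eq_zero.mp h3) j
      simpa [x, Fin.tail] using this
  let f : (Fin (n + 1) → ℝ) → (Fin n → ℝ) := fun y =>
    if 0 ≤ y 0 then g ((N y)⁻¹ • x y) else -g (-((N y)⁻¹ • x y))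
  have hxneg : ∀ y, x (-y) = -x y := by
    intro y
    funext i
    simp [x, Fin.tail]
  have hNneg : ∀ y, N (-y) = N y := by
    intro y
    simp only [N, hxneg, norm_neg, Pi.neg_apply, abs_neg]
  have hunit : ∀ y : Fin (n + 1) → ℝ, y ≠ 0 → y 0 = 0 → ‖(N y)⁻¹ • x y‖ = 1 := by
    intro y hy h0
    have hp := hN y hy
    have hNe : N y = ‖x y‖ := by simp [N, h0]
    rw [norm_smul, norm_inv, Real.norm_eq_abs, abs_of_pos hp, ← hNe]
    exact inv_mul_cancel₀ hp.ne'
  have hf : ContinuousOn f {0}ᶜ := by
    rw [continuousOn_iff_continuous_domRestrict]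
    have hsc : Continuous fun y : ({0}ᶜ : Set (Fin (n + 1) → ℝ)) => (N y.1)⁻¹ • x y.1 := by
      have c1 : Continuous fun y : ({0}ᶜ : Set (Fin (n + 1) → ℝ)) => (N y.1)⁻¹ := by
        apply Continuous.inv₀ (hNc.comp continuous_subtype_val)
        intro y
        exact (hN y.1 y.2).ne'
      have c2 : Continuous fun y : ({0}ᶜ : Set (Fin (n + 1) → ℝ)) => x y.1 :=
        hxc.comp continuous_subtype_val
      exact c1.smul c2
    have := Continuous.if_le (f' := fun y : ({0}ᶜ : Set (Fin (n + 1) → ℝ)) => g ((N y.1)⁻¹ • x y.1))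
      (g' := fun y : ({0}ᶜ : Set (Fin (n + 1) → ℝ)) => -g (-((N y.1)⁻¹ • x y.1)))
      (f := fun _ => (0 : ℝ)) (g := fun y => y.1 0)
      (hg.comp hsc) ((hg.comp hsc.neg).neg) continuous_const
      ((continuous_apply 0).comp continuous_subtype_val) (by
        intro y hy
        have h1 := hunit y.1 y.2 hy.symm
        show g ((N y.1)⁻¹ • x y.1) = -g (-((N y.1)⁻¹ • x y.1))
        rw [hodd _ h1, neg_neg])
    exact this
  have hfodd : ∀ y, y ≠ 0 → f (-y) = -f y := by
    intro y hy
    simp only [f, hxneg, hNneg, Pi.neg_apply]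
    rcases lt_trichotomy (y 0) 0 with h | h | h
    · rw [if_pos (by linarith), if_neg (not_le.mpr h), neg_neg, smul_neg]
    · have h1 := hunit y hy h
      rw [if_pos (by rw [h]; simp), if_pos (by rw [h]), smul_neg, hodd _ h1]
    · rw [if_neg (by linarith), if_pos h.le, smul_neg, neg_neg]
  obtain ⟨y, hy, h0⟩ := borsuk_ulam f hf hfodd
  by_cases hp : 0 ≤ y 0
  · exact ⟨_, by simpa [f, hp] using h0⟩
  · refine ⟨-((N y)⁻¹ • x y), ?_⟩
    simpa [f, hp] using h0

/-- No continuous map from the ball to the nonzero complex numbers is odd on the unit sphere,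
in dimension at least two. -/
theorem no_odd_complex {n : ℕ} (hn : 2 ≤ n) (w : (Fin n → ℝ) → ℂ) (hw : Continuous w)
    (h0 : ∀ x, w x ≠ 0) (hodd : ∀ x, ‖x‖ = 1 → w (-x) = -w x) : False := by
  classical
  let a : Fin n := ⟨0, by omega⟩
  let b : Fin n := ⟨1, by omega⟩
  have hab : a ≠ b := by
    intro h
    have := congrArg Fin.val h
    simp [a, b] at this
  let g : (Fin n → ℝ) → (Fin n → ℝ) := fun x i =>
    if i = a then (w x).re else if i = b then (w x).im else 0
  have hg : Continuous g := by
    apply continuous_pi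
    intro i
    by_cases h1 : i = a
    · simp only [g, h1, if_true]
      exact Complex.continuous_re.comp hw
    · by_cases h2 : i = b
      · have he : (fun x => g x i) = fun x => (w x).im := by
          funext x
          simp only [g]
          rw [if_neg h1, if_pos h2]
        rw [he]
        exact Complex.continuous_im.comp hw
      · have he : (fun x => g x i) = fun _ => (0 : ℝ) := by
          funext x
          simp only [g]
          rw [if_neg h1, if_neg h2]
        rw [he]
        exact continuous_const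
  obtain ⟨x, hx⟩ := bu_disc g hg (by
    intro x hx
    funext i
    simp only [g, hodd x hx, Pi.neg_apply, Complex.neg_re, Complex.neg_im]
    split_ifs <;> simp)
  apply h0 x
  apply Complex.ext
  · have := congrFun hx a
    simpa [g] using this
  · have := congrFun hx b
    simpa [g, hab.symm] using this

/-- A continuous family of vectors of `ℂ^n`, parametrised by the ball of `ℝ^n` and odd on the
unit sphere, takes an isotropic value. -/
theorem exists_isotropic {n : ℕ} (hn : 2 ≤ n) (z : (Fin n → ℝ) → (Fin n → ℂ))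
    (hz : Continuous z) (hodd : ∀ x, ‖x‖ = 1 → z (-x) = -z x) :
    ∃ x, ∑ j, z x j ^ 2 = 0 := by
  classical
  by_contra hcon
  push Not at hcon
  have hqc : Continuous fun x => ∑ j, z x j ^ 2 := by
    apply continuous_finsetSum
    intro j _
    exact ((continuous_apply j).comp hz).pow 2
  have hsc : IsSimplyConnected (Set.univ : Set (Fin n → ℝ)) := by
    have hcs : ContractibleSpace (Set.univ : Set (Fin n → ℝ)) :=
      convex_univ.contractibleSpace Set.univ_nonempty
    show SimplyConnectedSpace (Set.univ : Set (Fin n → ℝ))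
    infer_instance
  obtain ⟨w, hwc, hw⟩ := Complex.exists_continuousOn_pow_eq hsc isOpen_univ
    (g := fun x => ∑ j, z x j ^ 2) hqc.continuousOn (by
      rintro ⟨x, -, hx⟩
      exact hcon x hx) (n := 2) two_ne_zero
  rw [continuousOn_univ] at hwc
  have hw0 : ∀ x, w x ≠ 0 := by
    intro x h
    apply hcon x
    rw [← hw x, h]
    simp
  have heven : ∀ x, ‖x‖ = 1 → w (-x) ^ 2 = w x ^ 2 := by
    intro x hx
    rw [hw, hw, hodd x hx]
    simp
  -- the sign is constant on the sphere
  have hrank : 1 < Module.rank ℝ (Fin n → ℝ) := by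
    rw [rank_fin_fun]
    exact_mod_cast (by omega : 1 < n)
  have hconn : IsPreconnected (Metric.sphere (0 : Fin n → ℝ) 1) := isPreconnected_sphere hrank 0 1
  have hsign : (∀ x, ‖x‖ = 1 → w (-x) = w x) ∨ (∀ x, ‖x‖ = 1 → w (-x) = -w x) := by
    have hcc : ContinuousOn (fun x => (w (-x) / w x).re) (Metric.sphere (0 : Fin n → ℝ) 1) := by
      apply Continuous.continuousOn
      apply Complex.continuous_re.comp
      exact (hwc.comp continuous_neg).div hwc hw0
    have hval : ∀ x, ‖x‖ = 1 → (w (-x) = w x ∨ w (-x) = -w x) := fun x hx =>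
      sq_eq_sq_iff_eq_or_eq_neg.mp (heven x hx)
    by_contra hno
    push Not at hno
    obtain ⟨⟨x, hx, hx1⟩, ⟨y, hy, hy1⟩⟩ := hno
    have hxv : (w (-x) / w x).re = -1 := by
      rw [(hval x hx).resolve_left hx1, neg_div, div_self (hw0 x)]
      simp
    have hyv : (w (-y) / w y).re = 1 := by
      rw [(hval y hy).resolve_right hy1, div_self (hw0 y)]
      simp
    have := hconn.intermediate_value (a := x) (b := y) (by simpa using hx) (by simpa using hy) hcc
    have h0 : (0 : ℝ) ∈ Set.Icc ((w (-x) / w x).re) ((w (-y) / w y).re) := by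
      rw [hxv, hyv]
      constructor <;> norm_num
    obtain ⟨t, ht, htv⟩ := this h0
    have ht1 : ‖t‖ = 1 := by simpa using ht
    rcases hval t ht1 with h | h
    · simp only [h, div_self (hw0 t)] at htv
      simp at htv
    · simp only [h, neg_div, div_self (hw0 t)] at htv
      simp at htv
  rcases hsign with he | ho
  · -- the real part of `z / w` is odd and has no zero
    obtain ⟨x, hx⟩ := bu_disc (fun x j => (z x j / w x).re) (by
      apply continuous_pi
      intro j
      exact Complex.continuous_re.comp (((continuous_apply j).comp hz).div hwc hw0)) (by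
      intro x hx
      funext j
      simp only [hodd x hx, he x hx, Pi.neg_apply, neg_div, Complex.neg_re])
    have hre : ∀ j, (z x j / w x).re = 0 := fun j => congrFun hx j
    have h1 : ∑ j, (z x j / w x) ^ 2 = 1 := by
      simp only [div_pow]
      rw [← Finset.sum_div, hw x]
      exact div_self (hcon x)
    have h2 : (∑ j, (z x j / w x) ^ 2).re = ∑ j, -((z x j / w x).im ^ 2) := by
      rw [Complex.re_sum]
      apply Finset.sum_congr rfl
      intro j _
      rw [pow_two, Complex.mul_re, hre j]
      ring
    rw [h1] at h2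
    have h3 : ∑ j, -((z x j / w x).im ^ 2) ≤ 0 := by
      apply Finset.sum_nonpos
      intro j _
      have := sq_nonneg ((z x j / w x).im)
      linarith
    simp at h2
    have h4 : (1 : ℝ) ≤ 0 := by
      rw [h2]
      simpa using h3
    linarith
  · exact no_odd_complex hn w hwc hw0 ho

/-- The entries of the Gram matrix of the rows. -/
theorem gram_apply {n : ℕ} (A : Matrix (Fin 2) (Fin n) ℝ) (i k : Fin 2) :
    (A * A.transpose) i k = ∑ j, A i j * A k j := by
  simp [Matrix.mul_apply]

/-- An odd continuous family of `2 × n` matrices on the nonzero vectors of `ℝ^(n+1)` takes every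
value `δ` in `[0, 1/4]` of the ratio `det (B Bᵀ) / (tr (B Bᵀ))^2`. -/
theorem exists_ratio {n : ℕ} (hn : 2 ≤ n)
    (B : (Fin (n + 1) → ℝ) → Matrix (Fin 2) (Fin n) ℝ)
    (hB : ContinuousOn B {0}ᶜ) (hodd : ∀ x, x ≠ 0 → B (-x) = -B x)
    (δ : ℝ) (h0 : 0 ≤ δ) (h1 : δ ≤ 1 / 4) :
    ∃ x, x ≠ 0 ∧ (B x * (B x).transpose).det = δ * (B x * (B x).transpose).trace ^ 2 := by
  classical
  by_contra hcon
  push Not at hcon
  let F : (Fin (n + 1) → ℝ) → ℝ := fun x =>
    (B x * (B x).transpose).det - δ * (B x * (B x).transpose).trace ^ 2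
  have hF : ContinuousOn F {0}ᶜ := by
    rw [continuousOn_iff_continuous_domRestrict] at hB ⊢
    have hB' : Continuous fun y : ({0}ᶜ : Set (Fin (n + 1) → ℝ)) => B y.1 := hB
    show Continuous fun y : ({0}ᶜ : Set (Fin (n + 1) → ℝ)) => F y.1
    have hG : Continuous fun y : ({0}ᶜ : Set (Fin (n + 1) → ℝ)) =>
        (B y.1 * (B y.1).transpose) := hB'.matrix_mul hB'.matrix_transpose
    exact hG.matrix_det.sub (continuous_const.mul (hG.matrix_trace.pow 2))
  have hne : ∀ x, x ≠ 0 → F x ≠ 0 := fun x hx h => hcon x hx (by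
    have : F x = 0 := h
    simp only [F] at this
    linarith)
  have hrank : 1 < Module.rank ℝ (Fin (n + 1) → ℝ) := by
    rw [rank_fin_fun]
    exact_mod_cast (by omega : 1 < n + 1)
  have hconn : IsPreconnected ({0}ᶜ : Set (Fin (n + 1) → ℝ)) :=
    (isConnected_compl_singleton_of_one_lt_rank hrank 0).isPreconnected
  have hsg : (∀ x, x ≠ 0 → 0 < F x) ∨ (∀ x, x ≠ 0 → F x < 0) := by
    by_contra hno
    push Not at hno
    obtain ⟨⟨x, hx, hx1⟩, ⟨y, hy, hy1⟩⟩ := hno
    obtain ⟨t, ht, htv⟩ := hconn.intermediate_value (a := x) (b := y) (by simpa using hx)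
      (by simpa using hy) hF (⟨hx1, hy1⟩ : (0 : ℝ) ∈ Set.Icc (F x) (F y))
    exact hne t (by simpa using ht) htv
  rcases hsg with hpos | hneg
  · -- the first row is nowhere zero
    obtain ⟨y, hy, h⟩ := borsuk_ulam (fun x j => B x 0 j) (by
      rw [continuousOn_iff_continuous_domRestrict] at hB ⊢
      have hB' : Continuous fun y : ({0}ᶜ : Set (Fin (n + 1) → ℝ)) => B y.1 := hB
      show Continuous fun y : ({0}ᶜ : Set (Fin (n + 1) → ℝ)) => fun j => B y.1 0 j
      exact continuous_pi fun j => hB'.matrix_elem 0 j) (by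
      intro x hx
      funext j
      simp [hodd x hx])
    have hrow : ∀ j, B y 0 j = 0 := fun j => congrFun h j
    have hp := hpos y hy
    have hdet : (B y * (B y).transpose).det = 0 := by
      rw [Matrix.det_fin_two, gram_apply, gram_apply, gram_apply, gram_apply]
      simp [hrow]
    simp only [F, hdet] at hp
    have := mul_nonneg h0 (sq_nonneg (B y * (B y).transpose).trace)
    linarith
  · -- the complex vector `u + i v` is nowhere isotropic
    let io : (Fin n → ℝ) → (Fin (n + 1) → ℝ) := fun x => Fin.cons (max 0 (1 - ‖x‖)) x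
    have hioc : Continuous io := by
      apply continuous_pi
      intro i
      refine Fin.cases ?_ ?_ i
      · exact continuous_const.max (continuous_const.sub continuous_norm)
      · intro j
        exact continuous_apply j
    have hio0 : ∀ x, io x ≠ 0 := by
      intro x hx
      have h2 : max 0 (1 - ‖x‖) = 0 := by simpa [io] using congrFun hx 0
      have h3 : x = 0 := by
        funext j
        simpa [io] using congrFun hx j.succ
      rw [h3] at h2
      simp at h2
    have hioodd : ∀ x, ‖x‖ = 1 → io (-x) = -io x := by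
      intro x hx
      funext i
      refine Fin.cases ?_ ?_ i
      · simp [io, hx]
      · intro j
        simp [io]
    have hBio : Continuous fun x => B (io x) := hB.comp_continuous hioc (by
      intro x
      simpa using hio0 x)
    obtain ⟨x, hx⟩ := exists_isotropic hn
      (fun x j => ((B (io x) 0 j : ℝ) : ℂ) + ((B (io x) 1 j : ℝ) : ℂ) * Complex.I) (by
        apply continuous_pi
        intro j
        exact (Complex.continuous_ofReal.comp (hBio.matrix_elem 0 j)).add
          ((Complex.continuous_ofReal.comp (hBio.matrix_elem 1 j)).mul continuous_const)) (by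
        intro x hx
        funext j
        simp only [hioodd x hx, hodd _ (hio0 x), Matrix.neg_apply, Pi.neg_apply]
        push_cast
        ring)
    have hre : ∑ j, (B (io x) 0 j * B (io x) 0 j - B (io x) 1 j * B (io x) 1 j) = 0 := by
      have := congrArg Complex.re hx
      rw [Complex.re_sum] at this
      simp only [Complex.zero_re] at this
      rw [← this]
      apply Finset.sum_congr rfl
      intro j _
      simp [pow_two]
    have him : ∑ j, (2 * (B (io x) 0 j * B (io x) 1 j)) = 0 := by
      have := congrArg Complex.im hx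
      rw [Complex.im_sum] at this
      simp only [Complex.zero_im] at this
      rw [← this]
      apply Finset.sum_congr rfl
      intro j _
      simp [pow_two]
      ring
    rw [← Finset.mul_sum] at him
    rw [Finset.sum_sub_distrib] at hre
    have hn2 := hneg (io x) (hio0 x)
    simp only [F, Matrix.det_fin_two, Matrix.trace_fin_two, gram_apply] at hn2
    have hsym : ∑ j, B (io x) 1 j * B (io x) 0 j = ∑ j, B (io x) 0 j * B (io x) 1 j := by
      apply Finset.sum_congr rfl
      intro j _
      ring
    rw [hsym] at hn2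
    have e1 : ∑ j, B (io x) 0 j * B (io x) 1 j = 0 := by linarith
    have e2 : ∑ j, B (io x) 1 j * B (io x) 1 j = ∑ j, B (io x) 0 j * B (io x) 0 j := by
      linarith
    rw [e1, e2] at hn2
    have h5 : δ * (∑ j, B (io x) 0 j * B (io x) 0 j + ∑ j, B (io x) 0 j * B (io x) 0 j) ^ 2
        ≤ 1 / 4 * (∑ j, B (io x) 0 j * B (io x) 0 j + ∑ j, B (io x) 0 j * B (io x) 0 j) ^ 2 :=
      mul_le_mul_of_nonneg_right h1 (sq_nonneg _)
    nlinarith

end Pool.Agent.Helper40.CK
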