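import Pool.Agent.Helper29.CKP.Classify
import Pool.Agent.Helper29.CKP.ClassifyC
import Pool.Agent.Helper20.CKP.TwoK

/-!
# MP_bf60c4, project CKP: spaces of `2 × n` matrices over `ℝ` or `ℂ` at once
-/

set_option autoImplicit false

namespace Pool.Agent.Helper40.CK

open Matrix Module Pool.Agent.Helper20.CKP Pool.Agent.Helper29.CKP

/-- The conclusion of the classification for the space `P`. -/
def ClassConcl {K : Type} [RCLike K] {n : ℕ} (P : Submodule ℝ (Matrix (Fin 2) (Fin n) K)) : Prop :=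
  (∃ u : Fin 2 → K, u ≠ 0 ∧ ∀ B, B ∈ P ↔ ∃ x, B = vecMulVec u x) ∨
    (∃ S : Matrix (Fin n) (Fin n) K, Sᵀ = -S ∧ S * Sᴴ = 1 ∧
      ∀ B, B ∈ P ↔ ∃ x, B = Matrix.of ![x, S *ᵥ star x])

/-- The classification over `K`. -/
def ClassStmt (K : Type) [RCLike K] (n : ℕ) : Prop :=
  ∀ P : Submodule ℝ (Matrix (Fin 2) (Fin n) K), n * finrank ℝ K ≤ finrank ℝ P → ∀ δ : ℝ,
    (∀ B ∈ P, gd B = δ * gt B ^ 2) →
    (∀ B ∈ P, ∀ C ∈ P, (2 : ℝ) • (B * Cᴴ * B) - C * Bᴴ * B - B * Bᴴ * C ∈ P) → ClassConcl P

theorem classStmt_real {n : ℕ} (hn : 3 ≤ n) : ClassStmt ℝ n := by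
  intro P hdim δ hδ htri
  have hf : finrank ℝ ℝ = 1 := Module.finrank_self ℝ
  rw [hf, mul_one] at hdim
  have h1 : ∀ B ∈ P, (B * Bᵀ).det = δ * (B * Bᵀ).trace ^ 2 := by
    intro B hB
    have h2 := hδ B hB
    simp only [gd, gt, conjTranspose_eq_transpose_of_trivial, RCLike.re_to_real] at h2
    exact h2
  have h3 : ∀ B ∈ P, ∀ C ∈ P, (2 : ℝ) • (B * Cᵀ * B) - C * Bᵀ * B - B * Bᵀ * C ∈ P := by
    intro B hB C hC
    have h4 := htri B hB C hC
    simp only [conjTranspose_eq_transpose_of_trivial] at h4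
    exact h4
  rcases classify hn P hdim δ h1 h3 with h | ⟨J, hT, hJ, h⟩
  · exact Or.inl h
  · refine Or.inr ⟨J, hT, ?_, fun B => ?_⟩
    · rw [conjTranspose_eq_transpose_of_trivial, hT, Matrix.mul_neg, hJ, neg_neg]
    · rw [h B]
      simp only [star_trivial]

theorem classStmt_complex {n : ℕ} (hn : 3 ≤ n) : ClassStmt ℂ n := by
  intro P hdim δ hδ htri
  rw [Complex.finrank_real_complex, mul_comm] at hdim
  have hg : ∀ (B : Matrix (Fin 2) (Fin n) ℂ) (i j : Fin 2), (B * Bᴴ) i j = hm (B i) (B j) := by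
    intro B i j
    rw [Matrix.mul_apply, hm, dotProduct]
    rfl
  have him : ∀ x : Fin n → ℂ, (hm x x).im = 0 := by
    intro x
    rw [hm, dotProduct, Complex.im_sum]
    refine Finset.sum_eq_zero fun k _ => ?_
    simp [Complex.mul_im]
    ring
  have hst : ∀ x y : Fin n → ℂ, hm y x = star (hm x y) := by
    intro x y
    rw [hm, hm, dotProduct, dotProduct, star_sum]
    refine Finset.sum_congr rfl fun k _ => ?_
    simp [mul_comm]
  have h1 : ∀ B ∈ P, (hm (B 0) (B 0)).re * (hm (B 1) (B 1)).re - Complex.normSq (hm (B 0) (B 1)) =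
      δ * ((hm (B 0) (B 0)).re + (hm (B 1) (B 1)).re) ^ 2 := by
    intro B hB
    have h2 := hδ B hB
    rw [gd, gt, Matrix.det_fin_two, Matrix.trace_fin_two, hg, hg, hg, hg] at h2
    have h3 : RCLike.re (hm (B 0) (B 0) * hm (B 1) (B 1) - hm (B 0) (B 1) * hm (B 1) (B 0)) =
        (hm (B 0) (B 0)).re * (hm (B 1) (B 1)).re - Complex.normSq (hm (B 0) (B 1)) := by
      rw [hst (B 0) (B 1)]
      show (hm (B 0) (B 0) * hm (B 1) (B 1) - hm (B 0) (B 1) * star (hm (B 0) (B 1))).re = _
      rw [Complex.sub_re, Complex.mul_re, him, him, mul_zero, sub_zero]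
      congr 1
      rw [Complex.star_def, Complex.mul_conj, Complex.ofReal_re]
    have h4 : RCLike.re (hm (B 0) (B 0) + hm (B 1) (B 1)) =
        (hm (B 0) (B 0)).re + (hm (B 1) (B 1)).re := by
      show (hm (B 0) (B 0) + hm (B 1) (B 1)).re = _
      rw [Complex.add_re]
    rw [h3, h4] at h2
    exact h2
  exact classifyC hn P hdim δ h1 htri

/-- Transfer of the classification along an isomorphism. -/
theorem classStmt_transfer {K K' : Type} [RCLike K] [RCLike K'] {n : ℕ} (φ : K ≃+* K')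
    (hstar : ∀ x, φ (star x) = star (φ x)) (hre : ∀ x, RCLike.re (φ x) = RCLike.re x)
    (hsmul : ∀ (r : ℝ) (x : K), φ (r • x) = r • φ x)
    (h' : ClassStmt K' n) : ClassStmt K n := by
  intro P hdim δ hδ htri
  let ψ : K ≃ₗ[ℝ] K' :=
    { toFun := φ
      invFun := φ.symm
      map_add' := map_add φ
      map_smul' := fun r x => by rw [hsmul]; rfl
      left_inv := φ.symm_apply_apply
      right_inv := φ.apply_symm_apply }
  let Φ : Matrix (Fin 2) (Fin n) K ≃ₗ[ℝ] Matrix (Fin 2) (Fin n) K' := ψ.mapMatrix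
  have hΦ : ∀ B, Φ B = B.map φ := fun B => rfl
  have hsymm : ∀ x y : K, φ x = φ y → x = y := fun x y h => φ.injective h
  have hconj : ∀ {p q : ℕ} (B : Matrix (Fin p) (Fin q) K), (B.map φ)ᴴ = (Bᴴ).map φ := by
    intro p q B
    ext i j
    simp only [conjTranspose_apply, Matrix.map_apply, hstar]
  have hmul : ∀ {p q r : ℕ} (A : Matrix (Fin p) (Fin q) K) (B : Matrix (Fin q) (Fin r) K),
      (A * B).map φ = A.map φ * B.map φ := by
    intro p q r A B
    exact Matrix.map_mul
  have hgd : ∀ B : Matrix (Fin 2) (Fin n) K, gd (B.map φ) = gd B := by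
    intro B
    rw [gd, gd, hconj, ← hmul]
    have h1 : ((B * Bᴴ).map φ).det = φ (B * Bᴴ).det := (φ.toRingHom.map_det (B * Bᴴ)).symm
    rw [h1, hre]
  have hgt : ∀ B : Matrix (Fin 2) (Fin n) K, gt (B.map φ) = gt B := by
    intro B
    rw [gt, gt, hconj, ← hmul, Matrix.trace_fin_two, Matrix.trace_fin_two, Matrix.map_apply,
      Matrix.map_apply, ← map_add, hre]
  have hfin : finrank ℝ (P.map Φ.toLinearMap) = finrank ℝ P := Φ.finrank_map_eq P
  have hfK : finrank ℝ K' = finrank ℝ K := ψ.symm.finrank_eq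
  have hmem : ∀ B, B ∈ P ↔ B.map φ ∈ P.map Φ.toLinearMap := by
    intro B
    constructor
    · intro hB
      exact ⟨B, hB, rfl⟩
    · rintro ⟨C, hC, e⟩
      have : C = B := Φ.injective e
      rwa [← this]
  have hmain := h' (P.map Φ.toLinearMap) (by rw [hfin, hfK]; exact hdim) δ (by
      rintro _ ⟨B, hB, rfl⟩
      show gd (B.map φ) = δ * gt (B.map φ) ^ 2
      rw [hgd, hgt]
      exact hδ B hB) (by
      rintro _ ⟨B, hB, rfl⟩ _ ⟨C, hC, rfl⟩
      show (2 : ℝ) • (B.map φ * (C.map φ)ᴴ * B.map φ) - C.map φ * (B.map φ)ᴴ * B.map φ -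
        B.map φ * (B.map φ)ᴴ * C.map φ ∈ P.map Φ.toLinearMap
      have h1 : (2 : ℝ) • (B.map φ * (C.map φ)ᴴ * B.map φ) - C.map φ * (B.map φ)ᴴ * B.map φ -
          B.map φ * (B.map φ)ᴴ * C.map φ =
          ((2 : ℝ) • (B * Cᴴ * B) - C * Bᴴ * B - B * Bᴴ * C).map φ := by
        rw [hconj, hconj, ← hmul, ← hmul, ← hmul, ← hmul, ← hmul, ← hmul]
        ext i j
        simp only [Matrix.sub_apply, Matrix.smul_apply, Matrix.map_apply, map_sub, hsmul]
      rw [h1, ← hmem]
      exact htri B hB C hC)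
  rcases hmain with ⟨u, hu, h⟩ | ⟨S, hT, hS, h⟩
  · refine Or.inl ⟨fun i => φ.symm (u i), ?_, fun B => ?_⟩
    · intro h0
      apply hu
      funext i
      have h1 := congrFun h0 i
      simp only [Pi.zero_apply] at h1
      have h2 : φ (φ.symm (u i)) = φ 0 := by rw [h1]
      rw [φ.apply_symm_apply, map_zero] at h2
      exact h2
    · rw [hmem, h]
      constructor
      · rintro ⟨x, hx⟩
        refine ⟨fun j => φ.symm (x j), ?_⟩
        ext i j
        apply φ.injective
        have h1 := congrFun (congrFun hx i) j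
        rw [Matrix.map_apply, vecMulVec_apply] at h1
        rw [h1, vecMulVec_apply, map_mul, φ.apply_symm_apply, φ.apply_symm_apply]
      · rintro ⟨x, rfl⟩
        refine ⟨fun j => φ (x j), ?_⟩
        ext i j
        rw [Matrix.map_apply, vecMulVec_apply, vecMulVec_apply, map_mul, φ.apply_symm_apply]
  · refine Or.inr ⟨S.map φ.symm, ?_, ?_, fun B => ?_⟩
    · ext i j
      apply φ.injective
      have h1 := congrFun (congrFun hT i) j
      rw [Matrix.transpose_apply, Matrix.neg_apply] at h1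
      rw [Matrix.transpose_apply, Matrix.map_apply, Matrix.neg_apply, Matrix.map_apply, map_neg,
        φ.apply_symm_apply, φ.apply_symm_apply, h1]
    · have h1 : (S.map φ.symm).map φ = S := by
        ext i j
        simp
      have h2 : (S.map φ.symm * (S.map φ.symm)ᴴ).map φ = (1 : Matrix (Fin n) (Fin n) K).map φ := by
        rw [hmul, ← hconj, h1, hS]
        ext i j
        rw [Matrix.map_apply, Matrix.one_apply, Matrix.one_apply]
        split_ifs <;> simp
      ext i j
      apply φ.injective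
      exact congrFun (congrFun h2 i) j
    · rw [hmem, h]
      have key : ∀ x : Fin n → K, (Matrix.of ![x, S.map φ.symm *ᵥ star x]).map φ =
          Matrix.of ![fun j => φ (x j), S *ᵥ star (fun j => φ (x j))] := by
        intro x
        ext i j
        fin_cases i
        · rfl
        · show φ ((S.map φ.symm *ᵥ star x) j) = (S *ᵥ star (fun j => φ (x j))) j
          rw [mulVec, mulVec, dotProduct, dotProduct, map_sum]
          refine Finset.sum_congr rfl fun k _ => ?_
          rw [map_mul, Matrix.map_apply, φ.apply_symm_apply, Pi.star_apply, hstar, Pi.star_apply]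
      constructor
      · rintro ⟨x, hx⟩
        refine ⟨fun j => φ.symm (x j), ?_⟩
        have h1 := key (fun j => φ.symm (x j))
        simp only [φ.apply_symm_apply] at h1
        ext i j
        apply φ.injective
        have h2 : (B.map φ) i j = _ := congrFun (congrFun (hx.trans h1.symm) i) j
        exact h2
      · rintro ⟨x, rfl⟩
        exact ⟨fun j => φ (x j), key x⟩

/-- The classification over `ℝ` and `ℂ` at once. -/
theorem classifyK {K : Type} [RCLike K] {n : ℕ} (hn : 3 ≤ n)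
    (P : Submodule ℝ (Matrix (Fin 2) (Fin n) K)) (hdim : n * finrank ℝ K ≤ finrank ℝ P) (δ : ℝ)
    (hδ : ∀ B ∈ P, gd B = δ * gt B ^ 2)
    (htri : ∀ B ∈ P, ∀ C ∈ P, (2 : ℝ) • (B * Cᴴ * B) - C * Bᴴ * B - B * Bᴴ * C ∈ P) :
    (∃ u : Fin 2 → K, u ≠ 0 ∧ ∀ B, B ∈ P ↔ ∃ x, B = vecMulVec u x) ∨
    (Even n ∧ ∃ S : Matrix (Fin n) (Fin n) K, Sᵀ = -S ∧ S * Sᴴ = 1 ∧
      ∀ B, B ∈ P ↔ ∃ x, B = Matrix.of ![x, S *ᵥ star x]) := by
  have hall : ClassStmt K n := by
    rcases RCLike.I_eq_zero_or_im_I_eq_one (K := K) with h | h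
    · refine classStmt_transfer (RCLike.realRingEquiv h) ?_ ?_ ?_ (classStmt_real hn)
      · intro x
        show RCLike.re (star x) = star (RCLike.re x)
        rw [RCLike.star_def, RCLike.conj_re, star_trivial]
      · intro x
        rfl
      · intro r x
        show RCLike.re (r • x) = r • RCLike.re x
        rw [RCLike.smul_re, smul_eq_mul]
    · refine classStmt_transfer (RCLike.complexRingEquiv h) ?_ ?_ ?_ (classStmt_complex hn)
      · intro x
        apply Complex.ext
        · rw [RCLike.star_def]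
          simp
        · rw [RCLike.star_def]
          simp
      · intro x
        simp
      · intro r x
        apply Complex.ext
        · simp [RCLike.smul_re]
        · simp [RCLike.smul_im]
  rcases hall P hdim δ hδ htri with h | ⟨S, hT, hS, h⟩
  · exact Or.inl h
  · refine Or.inr ⟨?_, S, hT, hS, h⟩
    have h1 : S.det = (-1) ^ n * S.det := by
      calc S.det = Sᵀ.det := (Matrix.det_transpose S).symm
        _ = (-S).det := by rw [hT]
        _ = (-1) ^ n * S.det := by rw [Matrix.det_neg, Fintype.card_fin]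
    have h2 : S.det ≠ 0 := by
      intro h0
      have h3 := congrArg Matrix.det hS
      rw [Matrix.det_mul, h0, zero_mul, Matrix.det_one] at h3
      exact zero_ne_one h3
    by_contra hodd
    rw [Nat.not_even_iff_odd] at hodd
    rw [hodd.neg_one_pow, neg_one_mul] at h1
    have h3 : (2 : K) * S.det = 0 := by linear_combination h1
    rcases mul_eq_zero.1 h3 with h4 | h4
    · exact two_ne_zero h4
    · exact h2 h4

end Pool.Agent.Helper40.CK
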