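import Pool.Agent.Helper29.CKP.FormsK

/-!
# MP_bf60c4, project CKP: the Gram matrix of a large space of conjugate matrices
-/

set_option autoImplicit false

namespace Pool.Agent.Helper40.CK

open Matrix Module Pool.Agent.Helper29.CKP

/-- The symmetric matrices. -/
def symM (r : ℕ) : Submodule ℝ (Matrix (Fin r) (Fin r) ℝ) where
  carrier := {A | Aᵀ = A}
  add_mem' := by
    intro A B hA hB
    show (A + B)ᵀ = A + B
    rw [transpose_add, show Aᵀ = A from hA, show Bᵀ = B from hB]
  zero_mem' := by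
    show (0 : Matrix (Fin r) (Fin r) ℝ)ᵀ = 0
    simp
  smul_mem' := by
    intro c A hA
    show (c • A)ᵀ = c • A
    rw [transpose_smul, show Aᵀ = A from hA]

theorem mem_symM {r : ℕ} {A : Matrix (Fin r) (Fin r) ℝ} : A ∈ symM r ↔ Aᵀ = A := Iff.rfl

/-- The symmetric matrices of trace `0`. -/
def sym0 (r : ℕ) : Submodule ℝ (Matrix (Fin r) (Fin r) ℝ) :=
  symM r ⊓ LinearMap.ker (Matrix.traceLinearMap (Fin r) ℝ ℝ)

theorem mem_sym0 {r : ℕ} {A : Matrix (Fin r) (Fin r) ℝ} : A ∈ sym0 r ↔ Aᵀ = A ∧ A.trace = 0 :=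
  Iff.rfl

theorem finrank_symM_le (r : ℕ) : finrank ℝ (symM r) ≤ (r + 1).choose 2 := by
  have h1 : finrank ℝ (Sym2 (Fin r) → ℝ) = (r + 1).choose 2 := by
    rw [finrank_fintype_fun_eq_card, Sym2.card, Fintype.card_fin]
  rw [← h1]
  let L : Matrix (Fin r) (Fin r) ℝ →ₗ[ℝ] (Sym2 (Fin r) → ℝ) :=
    { toFun := fun A z => Sym2.lift ⟨fun i j => A i j + A j i, fun i j => add_comm _ _⟩ z
      map_add' := by
        intro A B
        funext z
        induction z with
        | _ i j =>
          simp only [Sym2.lift_mk, Matrix.add_apply, Pi.add_apply]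
          ring
      map_smul' := by
        intro c A
        funext z
        induction z with
        | _ i j =>
          simp only [Sym2.lift_mk, Matrix.smul_apply, Pi.smul_apply, smul_eq_mul,
            RingHom.id_apply]
          ring }
  have hinj : Function.Injective (L ∘ₗ (symM r).subtype) := by
    rw [← LinearMap.ker_eq_bot, LinearMap.ker_eq_bot']
    rintro ⟨A, hA⟩ h
    have hA' : Aᵀ = A := hA
    have h2 : ∀ i j, A i j = 0 := by
      intro i j
      have h3 := congrFun h s(i, j)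
      have h4 : A i j + A j i = 0 := h3
      have h5 : A j i = A i j := by
        have := congrFun (congrFun hA' i) j
        exact this
      rw [h5] at h4
      linarith
    apply Subtype.ext
    ext i j
    exact h2 i j
  exact LinearMap.finrank_le_finrank_of_injective hinj

theorem finrank_sym0_lt {r : ℕ} (hr : 0 < r) : finrank ℝ (sym0 r) + 1 ≤ (r + 1).choose 2 := by
  refine Nat.succ_le_of_lt (lt_of_lt_of_le ?_ (finrank_symM_le r))
  refine Submodule.finrank_lt_finrank_of_lt (lt_of_le_of_ne inf_le_left ?_)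
  intro h
  have h1 : (1 : Matrix (Fin r) (Fin r) ℝ) ∈ symM r := transpose_one
  rw [← h] at h1
  have h2 := (mem_sym0.1 h1).2
  rw [trace_one, Fintype.card_fin] at h2
  have h3 : (0 : ℝ) < r := by exact_mod_cast hr
  linarith

/-- Matrices as vectors of a Euclidean space. -/
noncomputable def vecE (r : ℕ) : Matrix (Fin r) (Fin r) ℝ →ₗ[ℝ] EuclideanSpace ℝ (Fin r × Fin r) where
  toFun A := WithLp.toLp 2 (fun p => A p.1 p.2)
  map_add' A B := by
    ext p
    rfl
  map_smul' c A := by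
    ext p
    rfl

theorem vecE_inj (r : ℕ) : Function.Injective (vecE r) := by
  intro A B h
  ext i j
  have := congrArg (fun v : EuclideanSpace ℝ (Fin r × Fin r) => v (i, j)) h
  exact this

theorem norm_vecE {r : ℕ} (A : Matrix (Fin r) (Fin r) ℝ) : ‖vecE r A‖ ^ 2 = (A * Aᵀ).trace := by
  rw [EuclideanSpace.norm_sq_eq, Fintype.sum_prod_type, Matrix.trace]
  refine Finset.sum_congr rfl fun i _ => ?_
  rw [Matrix.diag_apply, Matrix.mul_apply]
  refine Finset.sum_congr rfl fun j _ => ?_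
  rw [Real.norm_eq_abs, sq_abs, transpose_apply]
  show A i j ^ 2 = A i j * A i j
  ring

/-- The traceless part of the symmetric product. -/
noncomputable def symP (r n : ℕ) : Matrix (Fin r) (Fin n) ℝ →ₗ[ℝ] Matrix (Fin r) (Fin n) ℝ →ₗ[ℝ]
    Matrix (Fin r) (Fin r) ℝ :=
  LinearMap.mk₂ ℝ (fun B C => (1 / 2 : ℝ) • (B * Cᵀ + C * Bᵀ) -
      ((B * Cᵀ).trace / r) • (1 : Matrix (Fin r) (Fin r) ℝ))
    (by
      intro B B' C
      rw [Matrix.add_mul, transpose_add, Matrix.mul_add, trace_add, add_div, add_smul]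
      rw [show B * Cᵀ + B' * Cᵀ + (C * Bᵀ + C * B'ᵀ) =
        (B * Cᵀ + C * Bᵀ) + (B' * Cᵀ + C * B'ᵀ) by abel, smul_add]
      abel)
    (by
      intro c B C
      rw [Matrix.smul_mul, transpose_smul, Matrix.mul_smul, trace_smul, smul_eq_mul, mul_div_assoc,
        mul_smul, ← smul_add, smul_comm (1 / 2 : ℝ) c, smul_sub])
    (by
      intro B C C'
      rw [Matrix.add_mul, transpose_add, Matrix.mul_add, trace_add, add_div, add_smul]
      rw [show B * Cᵀ + B * C'ᵀ + (C * Bᵀ + C' * Bᵀ) =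
        (B * Cᵀ + C * Bᵀ) + (B * C'ᵀ + C' * Bᵀ) by abel, smul_add]
      abel)
    (by
      intro c B C
      rw [Matrix.smul_mul, transpose_smul, Matrix.mul_smul, trace_smul, smul_eq_mul, mul_div_assoc,
        mul_smul, ← smul_add, smul_comm (1 / 2 : ℝ) c, smul_sub])

theorem symP_apply {r n : ℕ} (B C : Matrix (Fin r) (Fin n) ℝ) : symP r n B C =
    (1 / 2 : ℝ) • (B * Cᵀ + C * Bᵀ) - ((B * Cᵀ).trace / r) • (1 : Matrix (Fin r) (Fin r) ℝ) := rfl

theorem symP_self {r n : ℕ} (B : Matrix (Fin r) (Fin n) ℝ) : symP r n B B =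
    B * Bᵀ - ((B * Bᵀ).trace / r) • (1 : Matrix (Fin r) (Fin r) ℝ) := by
  rw [symP_apply, ← two_smul ℝ (B * Bᵀ), smul_smul]
  norm_num

theorem trace_comm' {r n : ℕ} (B C : Matrix (Fin r) (Fin n) ℝ) :
    (B * Cᵀ).trace = (C * Bᵀ).trace := by
  rw [← trace_transpose (B * Cᵀ), transpose_mul, transpose_transpose]

theorem symP_comm {r n : ℕ} (B C : Matrix (Fin r) (Fin n) ℝ) : symP r n B C = symP r n C B := by
  rw [symP_apply, symP_apply, add_comm (B * Cᵀ), trace_comm' B C]

theorem symP_mem {r n : ℕ} (hr : 0 < r) (B C : Matrix (Fin r) (Fin n) ℝ) :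
    symP r n B C ∈ sym0 r := by
  have hr' : (r : ℝ) ≠ 0 := by
    have : (0 : ℝ) < r := by exact_mod_cast hr
    exact this.ne'
  refine mem_sym0.2 ⟨?_, ?_⟩
  · rw [symP_apply, transpose_sub, transpose_smul, transpose_smul, transpose_add, transpose_mul,
      transpose_mul, transpose_transpose, transpose_transpose, transpose_one, add_comm (C * Bᵀ)]
  · rw [symP_apply, trace_sub, trace_smul, trace_smul, trace_add, ← trace_comm' B C, trace_one,
      Fintype.card_fin, smul_eq_mul, smul_eq_mul, div_mul_cancel₀ _ hr']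
    ring

theorem trace_pos {r n : ℕ} {B : Matrix (Fin r) (Fin n) ℝ} (h : B ≠ 0) : 0 < (B * Bᵀ).trace := by
  have h1 : (B * Bᵀ).trace = ∑ i, ∑ j, B i j * B i j := by
    simp only [Matrix.trace, Matrix.diag_apply, Matrix.mul_apply, transpose_apply]
  have h2 : 0 ≤ (B * Bᵀ).trace := by
    rw [h1]
    exact Finset.sum_nonneg fun i _ => Finset.sum_nonneg fun j _ => mul_self_nonneg _
  refine lt_of_le_of_ne h2 fun h3 => h ?_
  rw [h1] at h3
  have h4 := (Finset.sum_eq_zero_iff_of_nonneg fun i _ =>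
    Finset.sum_nonneg fun j _ => mul_self_nonneg (B i j)).1 h3.symm
  ext i j
  have h5 := (Finset.sum_eq_zero_iff_of_nonneg fun j _ => mul_self_nonneg (B i j)).1
    (h4 i (Finset.mem_univ i)) j (Finset.mem_univ j)
  exact mul_self_eq_zero.1 h5

/-- If all elements of the space `P` of real `r × n` matrices are multiples of images of one
matrix `B0` under the orthogonal groups, and `P` is large, then the Gram matrix `B Bᵀ` is, up to
its trace, the same for all elements of `P`. -/
theorem gram_const {r n : ℕ} (P : Submodule ℝ (Matrix (Fin r) (Fin n) ℝ))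
    (B0 : Matrix (Fin r) (Fin n) ℝ)
    (h : ∀ B ∈ P, ∃ (U : Matrix (Fin r) (Fin r) ℝ) (W : Matrix (Fin n) (Fin n) ℝ) (t : ℝ),
      U * Uᵀ = 1 ∧ W * Wᵀ = 1 ∧ B = t • (U * B0 * W))
    (hdim : r * (r + 1) ≤ finrank ℝ P + 3) :
    ∃ D : Matrix (Fin r) (Fin r) ℝ, ∀ B ∈ P, B * Bᵀ = (B * Bᵀ).trace • D := by
  classical
  by_cases hP : P = ⊥
  · refine ⟨0, fun B hB => ?_⟩
    rw [hP, Submodule.mem_bot] at hB
    rw [hB]
    simp
  obtain ⟨B1, hB1, hB10⟩ := Submodule.exists_mem_ne_zero_of_ne_bot hP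
  have hpos : 0 < finrank ℝ P := by
    have : Nontrivial P := ⟨⟨⟨B1, hB1⟩, 0, fun h => hB10 (congrArg Subtype.val h)⟩⟩
    exact Module.finrank_pos
  have hB00 : B0 ≠ 0 := by
    rintro rfl
    obtain ⟨U, W, t, -, -, hB⟩ := h B1 hB1
    rw [Matrix.mul_zero, Matrix.zero_mul, smul_zero] at hB
    exact hB10 hB
  have hr : 0 < r := by
    rcases Nat.eq_zero_or_pos r with h0 | h0
    · subst h0
      exact absurd (Subsingleton.elim B0 0) hB00
    · exact h0
  have hr' : (r : ℝ) ≠ 0 := by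
    have : (0 : ℝ) < r := by exact_mod_cast hr
    exact this.ne'
  have hτ := trace_pos hB00
  have hτ1 := trace_pos hB10
  -- the conjugation
  have conj : ∀ B ∈ P, ∃ t : ℝ, (B * Bᵀ).trace = t ^ 2 * (B0 * B0ᵀ).trace ∧
      (symP r n B B * (symP r n B B)ᵀ).trace =
        t ^ 4 * (symP r n B0 B0 * (symP r n B0 B0)ᵀ).trace := by
    intro B hB
    obtain ⟨U, W, t, hU, hW, rfl⟩ := h B hB
    have hU' : Uᵀ * U = 1 := mul_eq_one_comm.1 hU
    have e1 : (t • (U * B0 * W)) * (t • (U * B0 * W))ᵀ = t ^ 2 • (U * (B0 * B0ᵀ) * Uᵀ) := by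
      rw [transpose_smul, Matrix.smul_mul, Matrix.mul_smul, smul_smul, transpose_mul,
        transpose_mul, ← sq]
      congr 1
      calc U * B0 * W * (Wᵀ * (B0ᵀ * Uᵀ)) = U * B0 * (W * Wᵀ) * (B0ᵀ * Uᵀ) := by
            simp only [Matrix.mul_assoc]
        _ = U * (B0 * B0ᵀ) * Uᵀ := by
            rw [hW, Matrix.mul_one]
            simp only [Matrix.mul_assoc]
    have tr : ∀ X : Matrix (Fin r) (Fin r) ℝ, (U * X * Uᵀ).trace = X.trace := by
      intro X
      rw [Matrix.mul_assoc, Matrix.trace_mul_comm, Matrix.mul_assoc, hU', Matrix.mul_one]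
    have e2 : ((t • (U * B0 * W)) * (t • (U * B0 * W))ᵀ).trace = t ^ 2 * (B0 * B0ᵀ).trace := by
      rw [e1, trace_smul, tr, smul_eq_mul]
    refine ⟨t, e2, ?_⟩
    have e3 : symP r n (t • (U * B0 * W)) (t • (U * B0 * W)) =
        t ^ 2 • (U * symP r n B0 B0 * Uᵀ) := by
      rw [symP_self, symP_self, e2, e1, Matrix.mul_sub, Matrix.sub_mul, smul_sub,
        Matrix.mul_smul, Matrix.mul_one, Matrix.smul_mul, hU, smul_smul, mul_div_assoc]
    rw [e3, transpose_smul, Matrix.smul_mul, Matrix.mul_smul, smul_smul, trace_smul,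
      transpose_mul, transpose_mul, transpose_transpose, smul_eq_mul]
    have e4 : U * symP r n B0 B0 * Uᵀ * (U * ((symP r n B0 B0)ᵀ * Uᵀ)) =
        U * (symP r n B0 B0 * (symP r n B0 B0)ᵀ) * Uᵀ := by
      calc U * symP r n B0 B0 * Uᵀ * (U * ((symP r n B0 B0)ᵀ * Uᵀ)) =
          U * symP r n B0 B0 * (Uᵀ * U) * ((symP r n B0 B0)ᵀ * Uᵀ) := by
            simp only [Matrix.mul_assoc]
        _ = U * (symP r n B0 B0 * (symP r n B0 B0)ᵀ) * Uᵀ := by
            rw [hU', Matrix.mul_one]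
            simp only [Matrix.mul_assoc]
    rw [e4, tr]
    ring
  -- the key claim
  have key : ∀ B ∈ P, symP r n B B = ((B * Bᵀ).trace / (B1 * B1ᵀ).trace) • symP r n B1 B1 := by
    by_cases hκ : (symP r n B0 B0 * (symP r n B0 B0)ᵀ).trace = 0
    · have h0 : ∀ B ∈ P, symP r n B B = 0 := by
        intro B hB
        obtain ⟨t, -, ht⟩ := conj B hB
        rw [hκ, mul_zero] at ht
        by_contra hne
        exact absurd ht (trace_pos hne).ne'
      intro B hB
      rw [h0 B hB, h0 B1 hB1, smul_zero]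
    · have hκ0 : 0 < (symP r n B0 B0 * (symP r n B0 B0)ᵀ).trace := by
        refine trace_pos ?_
        intro h0
        rw [h0] at hκ
        simp at hκ
      -- orthonormal coordinates
      let F : Submodule ℝ (EuclideanSpace ℝ (Fin r × Fin r)) := (sym0 r).map (vecE r)
      have hF : finrank ℝ F + 1 ≤ (r + 1).choose 2 :=
        le_trans (Nat.add_le_add_right (Submodule.finrank_map_le _ _) 1) (finrank_sym0_lt hr)
      let ob := stdOrthonormalBasis ℝ F
      have hdim' : 2 * finrank ℝ F ≤ finrank ℝ P + 1 := by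
        have h2 : 2 * (r + 1).choose 2 = r * (r + 1) := by
          rw [Nat.choose_two_right, Nat.add_sub_cancel, mul_comm r]
          exact Nat.mul_div_cancel' (Nat.even_mul_pred_self (r + 1)).two_dvd
        omega
      let ι : P →ₗ[ℝ] Matrix (Fin r) (Fin n) ℝ := P.subtype
      let S : P →ₗ[ℝ] P →ₗ[ℝ] Matrix (Fin r) (Fin r) ℝ := (symP r n).compl₁₂ ι ι
      let b : Fin (finrank ℝ F) → P →ₗ[ℝ] P →ₗ[ℝ] ℝ := fun j =>
        S.compr₂ ((innerSL ℝ (ob j : EuclideanSpace ℝ (Fin r × Fin r))).toLinearMap ∘ₗ vecE r)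
      have eb : ∀ j (x y : P), b j x y =
          inner ℝ (ob j : EuclideanSpace ℝ (Fin r × Fin r)) (vecE r (symP r n x.1 y.1)) := by
        intro j x y
        rfl
      let N : P →ₗ[ℝ] P →ₗ[ℝ] ℝ := LinearMap.mk₂ ℝ (fun x y => (x.1 * y.1ᵀ).trace)
        (by
          intro x x' y
          rw [Submodule.coe_add, Matrix.add_mul, trace_add])
        (by
          intro c x y
          rw [Submodule.coe_smul, Matrix.smul_mul, trace_smul])
        (by
          intro x y y'
          rw [Submodule.coe_add, transpose_add, Matrix.mul_add, trace_add])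
        (by
          intro c x y
          rw [Submodule.coe_smul, transpose_smul, Matrix.mul_smul, trace_smul])
      have eN : ∀ x y : P, N x y = (x.1 * y.1ᵀ).trace := fun x y => rfl
      let c : ℝ := Real.sqrt ((symP r n B0 B0 * (symP r n B0 B0)ᵀ).trace) / (B0 * B0ᵀ).trace
      have hc : 0 < c := div_pos (Real.sqrt_pos.2 hκ0) hτ
      have hc2 : c ^ 2 * (B0 * B0ᵀ).trace ^ 2 =
          (symP r n B0 B0 * (symP r n B0 B0)ᵀ).trace := by
        show (Real.sqrt ((symP r n B0 B0 * (symP r n B0 B0)ᵀ).trace) / (B0 * B0ᵀ).trace) ^ 2 *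
          (B0 * B0ᵀ).trace ^ 2 = _
        rw [div_pow, Real.sq_sqrt hκ0.le, div_mul_cancel₀ _ (pow_pos hτ 2).ne']
      have memF : ∀ x y : P, vecE r (symP r n x.1 y.1) ∈ F := fun x y =>
        Submodule.mem_map_of_mem (symP_mem hr _ _)
      have hq : ∀ x : P, ∑ j, b j x x ^ 2 = c ^ 2 * N x x ^ 2 := by
        intro x
        obtain ⟨t, ht1, ht2⟩ := conj x.1 x.2
        have h1 := ob.sum_sq_inner_right (⟨vecE r (symP r n x.1 x.1), memF x x⟩ : F)
        have h2 : ∑ j, b j x x ^ 2 = ‖vecE r (symP r n x.1 x.1)‖ ^ 2 := by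
          rw [show ‖vecE r (symP r n x.1 x.1)‖ =
            ‖(⟨vecE r (symP r n x.1 x.1), memF x x⟩ : F)‖ from rfl, ← h1]
          rfl
        rw [h2, norm_vecE, ht2, eN, ht1, ← hc2]
        ring
      obtain ⟨ν, -, hν⟩ := formsK hdim' hpos
        (fun x y => by rw [eN, eN, trace_comm'])
        (fun j x y => by rw [eb, eb, symP_comm])
        (fun x hx => by
          rw [eN]
          exact trace_pos fun h0 => hx (Subtype.ext h0))
        hc hq
      intro B hB
      -- the difference is orthogonal to the basis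
      have hz : vecE r (symP r n B B - ((B * Bᵀ).trace / (B1 * B1ᵀ).trace) • symP r n B1 B1) = 0 := by
        let v : F := ⟨vecE r (symP r n B B), memF ⟨B, hB⟩ ⟨B, hB⟩⟩ -
          ((B * Bᵀ).trace / (B1 * B1ᵀ).trace) • ⟨vecE r (symP r n B1 B1), memF ⟨B1, hB1⟩ ⟨B1, hB1⟩⟩
        have hv : v = 0 := by
          have h1 : ∀ j, inner ℝ (ob j) v = 0 := by
            intro j
            show inner ℝ (ob j : EuclideanSpace ℝ (Fin r × Fin r)) (vecE r (symP r n B B) -
              ((B * Bᵀ).trace / (B1 * B1ᵀ).trace) • vecE r (symP r n B1 B1)) = 0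
            rw [inner_sub_right, real_inner_smul_right]
            have a1 : inner ℝ (ob j : EuclideanSpace ℝ (Fin r × Fin r)) (vecE r (symP r n B B)) =
              c * ν j * (B * Bᵀ).trace := hν ⟨B, hB⟩ j
            have a2 : inner ℝ (ob j : EuclideanSpace ℝ (Fin r × Fin r)) (vecE r (symP r n B1 B1)) =
              c * ν j * (B1 * B1ᵀ).trace := hν ⟨B1, hB1⟩ j
            rw [a1, a2]
            field_simp
            ring
          have h2 := ob.sum_sq_inner_right v
          have h3 : ‖v‖ ^ 2 = 0 := by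
            rw [← h2]
            exact Finset.sum_eq_zero fun j _ => by rw [h1 j]; ring
          exact norm_eq_zero.1 (pow_eq_zero_iff (two_ne_zero)|>.1 h3)
        have h4 := congrArg Subtype.val hv
        rw [map_sub, map_smul]
        exact h4
      have h5 := vecE_inj r (hz.trans (map_zero (vecE r)).symm)
      exact sub_eq_zero.1 h5
  refine ⟨(1 / (B1 * B1ᵀ).trace) • (B1 * B1ᵀ), fun B hB => ?_⟩
  have h1 := key B hB
  rw [symP_self, symP_self, smul_sub, smul_smul] at h1
  have h2 : (B * Bᵀ).trace / (B1 * B1ᵀ).trace * ((B1 * B1ᵀ).trace / r) = (B * Bᵀ).trace / r := by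
    field_simp
  rw [h2] at h1
  have h3 := sub_left_injective (G := Matrix (Fin r) (Fin r) ℝ) h1
  have h4 : (B * Bᵀ).trace • ((1 / (B1 * B1ᵀ).trace) • (B1 * B1ᵀ)) =
      ((B * Bᵀ).trace / (B1 * B1ᵀ).trace) • (B1 * B1ᵀ) := by
    rw [smul_smul]
    congr 1
    ring
  rw [h4]
  exact h3

end Pool.Agent.Helper40.CK
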