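import Pool.Agent.Helper40.CK.Descend

/-!
# Rational approximation of homomorphisms and finite generation
-/

namespace Pool.Agent.Helper40.CK

theorem approx {k : ℕ} (A : AddSubgroup (Fin k → ℝ)) (hA : A.FG) (F : Set A) (hF : F.Finite) :
    ∃ (lam : A →+ (Fin k → ℝ)) (N : ℕ), 1 ≤ N ∧ (∀ a ∈ F, ‖lam a - (a : Fin k → ℝ)‖ ≤ 1 / 2) ∧
      ∀ a i, ∃ m : ℤ, lam a i = m / N := by
  classical
  have hfin : Module.Finite ℤ A := by
    rw [Module.Finite.iff_addGroup_fg]
    exact (AddGroup.fg_iff_addSubgroup_fg A).mpr hA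
  let b := Module.Free.chooseBasis ℤ A
  obtain ⟨B, hB⟩ := (hF.image fun a => ∑ j, |((b.repr a j : ℤ) : ℝ)|).bddAbove
  set N : ℕ := ⌈2 * B⌉₊ + 1 with hN
  have hN0 : (0 : ℝ) < N := by
    rw [hN]
    positivity
  have hNB : 2 * B ≤ N := by
    rw [hN]
    push_cast
    have := Nat.le_ceil (2 * B)
    linarith
  let lam : A →ₗ[ℤ] (Fin k → ℝ) := b.constr ℤ
    (fun j => fun i => ((round ((N : ℝ) * (b j : Fin k → ℝ) i) : ℤ) : ℝ) / N)
  have hlam : ∀ a i, lam a i = ∑ j, ((b.repr a j : ℤ) : ℝ) *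
      (((round ((N : ℝ) * (b j : Fin k → ℝ) i) : ℤ) : ℝ) / N) := by
    intro a i
    rw [Module.Basis.constr_apply_fintype, Finset.sum_apply]
    refine Finset.sum_congr rfl fun j _ => ?_
    rw [Pi.smul_apply, zsmul_eq_mul]
    rfl
  have hself : ∀ (a : A) i, (a : Fin k → ℝ) i =
      ∑ j, ((b.repr a j : ℤ) : ℝ) * (b j : Fin k → ℝ) i := by
    intro a i
    have h1 := b.sum_repr a
    have h2 := congrArg (fun x : A => (x : Fin k → ℝ) i) h1
    rw [← h2, AddSubgroup.val_finsetSum, Finset.sum_apply]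
    refine Finset.sum_congr rfl fun j _ => ?_
    rw [AddSubgroup.coe_zsmul, Pi.smul_apply, zsmul_eq_mul]
  refine ⟨lam.toAddMonoidHom, N, by omega, fun a ha => ?_, fun a i => ?_⟩
  · rw [pi_norm_le_iff_of_nonneg (by norm_num)]
    intro i
    rw [Pi.sub_apply]
    have h1 : lam.toAddMonoidHom a i = lam a i := rfl
    rw [h1, hlam, hself, ← Finset.sum_sub_distrib]
    have h2 : ∀ j, |((round ((N : ℝ) * (b j : Fin k → ℝ) i) : ℤ) : ℝ) / N -
        (b j : Fin k → ℝ) i| ≤ 1 / N := by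
      intro j
      have h3 := abs_sub_round ((N : ℝ) * (b j : Fin k → ℝ) i)
      have h4 : ((round ((N : ℝ) * (b j : Fin k → ℝ) i) : ℤ) : ℝ) / N -
          (b j : Fin k → ℝ) i = -((N : ℝ) * (b j : Fin k → ℝ) i -
            ((round ((N : ℝ) * (b j : Fin k → ℝ) i) : ℤ) : ℝ)) / N := by
        field_simp
        ring
      rw [h4, abs_div, abs_neg, abs_of_pos hN0]
      gcongr
      linarith
    rw [Real.norm_eq_abs]
    calc |∑ j, (((b.repr a j : ℤ) : ℝ) * (((round ((N : ℝ) * (b j : Fin k → ℝ) i) : ℤ) : ℝ) / N) -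
          ((b.repr a j : ℤ) : ℝ) * (b j : Fin k → ℝ) i)|
        ≤ ∑ j, |((b.repr a j : ℤ) : ℝ) * (((round ((N : ℝ) * (b j : Fin k → ℝ) i) : ℤ) : ℝ) / N) -
          ((b.repr a j : ℤ) : ℝ) * (b j : Fin k → ℝ) i| := Finset.abs_sum_le_sum_abs _ _
      _ ≤ ∑ j, |((b.repr a j : ℤ) : ℝ)| * (1 / N) := by
          refine Finset.sum_le_sum fun j _ => ?_
          rw [← mul_sub, abs_mul]
          exact mul_le_mul_of_nonneg_left (h2 j) (abs_nonneg _)
      _ = (∑ j, |((b.repr a j : ℤ) : ℝ)|) * (1 / N) := by rw [Finset.sum_mul]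
      _ ≤ B * (1 / N) := by
          gcongr
          exact hB ⟨a, ha, rfl⟩
      _ ≤ 1 / 2 := by
          rw [mul_one_div, div_le_iff₀ hN0]
          linarith
  · refine ⟨∑ j, b.repr a j * round ((N : ℝ) * (b j : Fin k → ℝ) i), ?_⟩
    have h1 : lam.toAddMonoidHom a i = lam a i := rfl
    rw [h1, hlam]
    push_cast
    rw [Finset.sum_div]
    refine Finset.sum_congr rfl fun j _ => ?_
    ring

section

variable {G : Type} [Group G] [TopologicalSpace G] [IsTopologicalGroup G] [LocallyCompactSpace G]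
  {Γ H : Subgroup G} {K0 : Set (G ⧸ H)}

/-- A group acting properly discontinuously and cocompactly on a space with finitely many
connected components is finitely generated. -/
theorem fg_of_cocompact [Finite (ConnectedComponents (G ⧸ H))]
    (hprop : ∀ K : Set (G ⧸ H), IsCompact K → {γ : G | γ ∈ Γ ∧ ∃ x ∈ K, γ • x ∈ K}.Finite)
    (hK0 : IsCompact K0) (hcov : ∀ x : G ⧸ H, ∃ γ : Γ, (γ : G) • x ∈ K0) : Group.FG Γ := by
  classical
  obtain ⟨K', hK', hsub⟩ := exists_compact_superset hK0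
  have hE : {γ : Γ | ∃ x ∈ K', (γ : G) • x ∈ K'}.Finite := by
    refine Set.Finite.of_finite_image (f := fun γ : Γ => (γ : G)) ((hprop K' hK').subset ?_)
      (fun a _ b _ hab => Subtype.ext hab)
    rintro _ ⟨γ, hγ, rfl⟩
    exact ⟨γ.2, hγ⟩
  set E := {γ : Γ | ∃ x ∈ K', (γ : G) • x ∈ K'} with hEdef
  set Γ' : Subgroup Γ := Subgroup.closure E with hΓ'
  choose g hg using hcov
  let f : G ⧸ H → Γ ⧸ Γ' := fun x => (((g x)⁻¹ : Γ) : Γ ⧸ Γ')
  have hf : ∀ (γ : Γ) (x : G ⧸ H), (γ : G) • x ∈ K' → f x = ((γ⁻¹ : Γ) : Γ ⧸ Γ') := by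
    intro γ x hx
    show (((g x)⁻¹ : Γ) : Γ ⧸ Γ') = ((γ⁻¹ : Γ) : Γ ⧸ Γ')
    rw [QuotientGroup.eq, inv_inv]
    apply Subgroup.subset_closure
    refine ⟨(γ : G) • x, hx, ?_⟩
    have : ((g x * γ⁻¹ : Γ) : G) • (γ : G) • x = (g x : G) • x := by
      rw [smul_smul]
      congr 1
      push_cast
      group
    rw [this]
    exact interior_subset (hsub (hg x))
  have hloc : IsLocallyConstant f := by
    rw [IsLocallyConstant.iff_exists_open]
    intro x
    refine ⟨(fun y => (g x : G) • y) ⁻¹' interior K',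
      isOpen_interior.preimage (continuous_const_smul _), hsub (hg x), fun y hy => ?_⟩
    rw [hf (g x) y (interior_subset hy)]
  have hsurj : Function.Surjective f := by
    intro c
    induction c using QuotientGroup.induction_on with
    | H γ =>
      let x1 : G ⧸ H := ((1 : G) : G ⧸ H)
      refine ⟨(γ : G) • (g x1 : G) • x1, ?_⟩
      rw [hf γ⁻¹]
      · rw [inv_inv]
      · rw [Subgroup.coe_inv, inv_smul_smul]
        exact interior_subset (hsub (hg x1))
  have hfinq : Finite (Γ ⧸ Γ') := by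
    let F : ConnectedComponents (G ⧸ H) → Γ ⧸ Γ' := Quotient.lift f (by
      intro a b hab
      exact hloc.apply_eq_of_isPreconnected (isPreconnected_connectedComponent (x := b))
        (by
          have h1 : connectedComponent a = connectedComponent b := hab
          rw [← h1]
          exact mem_connectedComponent) mem_connectedComponent)
    refine Finite.of_surjective F fun c => ?_
    obtain ⟨x, hx⟩ := hsurj c
    exact ⟨Quotient.mk _ x, hx⟩
  have hrep : ∃ R : Set Γ, R.Finite ∧ ∀ γ : Γ, ∃ r ∈ R, r⁻¹ * γ ∈ Γ' := by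
    refine ⟨Set.range fun c : Γ ⧸ Γ' => Quotient.out c, Set.finite_range _, fun γ => ?_⟩
    refine ⟨Quotient.out (γ : Γ ⧸ Γ'), ⟨_, rfl⟩, ?_⟩
    rw [← QuotientGroup.eq]
    exact QuotientGroup.out_eq' _
  obtain ⟨R, hRfin, hR⟩ := hrep
  rw [Group.fg_iff]
  refine ⟨E ∪ R, ?_, hE.union hRfin⟩
  rw [eq_top_iff]
  intro γ _
  obtain ⟨r, hr, hrγ⟩ := hR γ
  have h1 : r ∈ Subgroup.closure (E ∪ R) := Subgroup.subset_closure (Or.inr hr)
  have h2 : r⁻¹ * γ ∈ Subgroup.closure (E ∪ R) :=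
    Subgroup.closure_mono Set.subset_union_left hrγ
  have h3 : γ = r * (r⁻¹ * γ) := by group
  rw [h3]
  exact Subgroup.mul_mem _ h1 h2

end

end Pool.Agent.Helper40.CK
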