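import Pool.Agent.Helper20.CKP.Defs
import Pool.Agent.Helper17.CKF.O2

/-!
# A check of the definitions: the Lorentz groups `O(1, m)`

For `m ≥ 2` the group `O(1, m)` satisfies `IsReductive` and `IsRankOne`, and `pSpace` has
dimension `m`.
-/

set_option autoImplicit false

namespace Pool.Agent.Helper40.CK

open Matrix Module Pool.Agent.Helper20.CKP

/-- The matrix `diag(-1, 1, ..., 1)`. -/
def lorentz (m : ℕ) : Matrix (Fin (m + 1)) (Fin (m + 1)) ℝ :=
  diagonal (Fin.cons (-1) (fun _ => 1))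

theorem lorentz_sq (m : ℕ) : lorentz m * lorentz m = 1 := by
  rw [lorentz, diagonal_mul_diagonal, ← diagonal_one]
  congr 1
  funext i
  refine Fin.cases ?_ (fun i => ?_) i <;> simp

theorem lorentz_tr (m : ℕ) : (lorentz m)ᵀ = lorentz m := diagonal_transpose _

/-- The group `O(1, m)`. -/
def O1 (m : ℕ) : Subgroup (GL (Fin (m + 1)) ℝ) where
  carrier := {g | (g : Matrix (Fin (m + 1)) (Fin (m + 1)) ℝ)ᵀ * lorentz m *
    (g : Matrix (Fin (m + 1)) (Fin (m + 1)) ℝ) = lorentz m}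
  mul_mem' := by
    intro a b ha hb
    show ((a * b : GL _ ℝ) : Matrix (Fin (m + 1)) (Fin (m + 1)) ℝ)ᵀ * lorentz m *
      ((a * b : GL _ ℝ) : Matrix (Fin (m + 1)) (Fin (m + 1)) ℝ) = lorentz m
    rw [Units.val_mul, transpose_mul]
    calc _ = (b : Matrix (Fin (m + 1)) (Fin (m + 1)) ℝ)ᵀ *
          ((a : Matrix (Fin (m + 1)) (Fin (m + 1)) ℝ)ᵀ * lorentz m *
            (a : Matrix (Fin (m + 1)) (Fin (m + 1)) ℝ)) *
          (b : Matrix (Fin (m + 1)) (Fin (m + 1)) ℝ) := by simp only [Matrix.mul_assoc]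
      _ = lorentz m := by rw [show (a : Matrix (Fin (m + 1)) (Fin (m + 1)) ℝ)ᵀ * lorentz m *
            (a : Matrix (Fin (m + 1)) (Fin (m + 1)) ℝ) = lorentz m from ha]; exact hb
  one_mem' := by
    show ((1 : GL (Fin (m + 1)) ℝ) : Matrix (Fin (m + 1)) (Fin (m + 1)) ℝ)ᵀ * lorentz m *
      ((1 : GL (Fin (m + 1)) ℝ) : Matrix (Fin (m + 1)) (Fin (m + 1)) ℝ) = lorentz m
    rw [Units.val_one, transpose_one, Matrix.one_mul, Matrix.mul_one]
  inv_mem' := by
    intro a ha
    show ((a⁻¹ : GL _ ℝ) : Matrix (Fin (m + 1)) (Fin (m + 1)) ℝ)ᵀ * lorentz m *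
      ((a⁻¹ : GL _ ℝ) : Matrix (Fin (m + 1)) (Fin (m + 1)) ℝ) = lorentz m
    have h1 : (a : Matrix (Fin (m + 1)) (Fin (m + 1)) ℝ)ᵀ * lorentz m *
      (a : Matrix (Fin (m + 1)) (Fin (m + 1)) ℝ) = lorentz m := ha
    have h2 : (a : Matrix (Fin (m + 1)) (Fin (m + 1)) ℝ) *
      ((a⁻¹ : GL _ ℝ) : Matrix (Fin (m + 1)) (Fin (m + 1)) ℝ) = 1 := by
      rw [← Units.val_mul, mul_inv_cancel, Units.val_one]
    have h3 : ((a⁻¹ : GL _ ℝ) : Matrix (Fin (m + 1)) (Fin (m + 1)) ℝ)ᵀ *
        (a : Matrix (Fin (m + 1)) (Fin (m + 1)) ℝ)ᵀ = 1 := by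
      rw [← transpose_mul, h2, transpose_one]
    calc _ = ((a⁻¹ : GL _ ℝ) : Matrix (Fin (m + 1)) (Fin (m + 1)) ℝ)ᵀ *
          ((a : Matrix (Fin (m + 1)) (Fin (m + 1)) ℝ)ᵀ * lorentz m *
            (a : Matrix (Fin (m + 1)) (Fin (m + 1)) ℝ)) *
          ((a⁻¹ : GL _ ℝ) : Matrix (Fin (m + 1)) (Fin (m + 1)) ℝ) := by rw [h1]
      _ = (((a⁻¹ : GL _ ℝ) : Matrix (Fin (m + 1)) (Fin (m + 1)) ℝ)ᵀ *
          (a : Matrix (Fin (m + 1)) (Fin (m + 1)) ℝ)ᵀ) * lorentz m *
            ((a : Matrix (Fin (m + 1)) (Fin (m + 1)) ℝ) *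
          ((a⁻¹ : GL _ ℝ) : Matrix (Fin (m + 1)) (Fin (m + 1)) ℝ)) := by
          simp only [Matrix.mul_assoc]
      _ = lorentz m := by rw [h2, h3, Matrix.one_mul, Matrix.mul_one]

theorem mem_O1 {m : ℕ} {g : GL (Fin (m + 1)) ℝ} : g ∈ O1 m ↔
    (g : Matrix (Fin (m + 1)) (Fin (m + 1)) ℝ)ᵀ * lorentz m *
      (g : Matrix (Fin (m + 1)) (Fin (m + 1)) ℝ) = lorentz m := Iff.rfl

/-- For symmetric `X`: `exp X` is in `O(1, m)` iff `J X J = - X`. -/
theorem exp_mem_O1 {m : ℕ} {X : Matrix (Fin (m + 1)) (Fin (m + 1)) ℝ} (hX : Xᵀ = X) :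
    expGL X ∈ O1 m ↔ lorentz m * X * lorentz m = -X := by
  have hJ := lorentz_sq m
  have hJi : (lorentz m)⁻¹ = lorentz m := inv_eq_right_inv hJ
  have hJu : IsUnit (lorentz m) := IsUnit.of_mul_eq_one _ hJ
  have hc : NormedSpace.exp (lorentz m * X * lorentz m) =
      lorentz m * NormedSpace.exp X * lorentz m := by
    have := Matrix.exp_conj (lorentz m) X hJu
    rwa [hJi] at this
  have hinv : NormedSpace.exp (-X) * NormedSpace.exp X = 1 := by
    rw [Matrix.exp_neg]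
    exact nonsing_inv_mul _ ((Matrix.isUnit_iff_isUnit_det _).mp (Matrix.isUnit_exp X))
  have hinv' : NormedSpace.exp X * NormedSpace.exp (-X) = 1 := mul_eq_one_comm.mp hinv
  have htr : (NormedSpace.exp X)ᵀ = NormedSpace.exp X := by
    rw [← Matrix.exp_transpose, hX]
  rw [mem_O1]
  show (NormedSpace.exp X)ᵀ * lorentz m * NormedSpace.exp X = lorentz m ↔ _
  rw [htr]
  constructor
  · intro h
    apply Pool.Agent.Helper17.CKF.exp_inj
    · rw [transpose_mul, transpose_mul, hX, lorentz_tr, Matrix.mul_assoc]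
    · rw [transpose_neg, hX]
    · rw [hc]
      calc lorentz m * NormedSpace.exp X * lorentz m
          = (NormedSpace.exp (-X) * NormedSpace.exp X) * (lorentz m * NormedSpace.exp X *
            lorentz m) := by rw [hinv, Matrix.one_mul]
        _ = NormedSpace.exp (-X) * (NormedSpace.exp X * lorentz m * NormedSpace.exp X) *
            lorentz m := by simp only [Matrix.mul_assoc]
        _ = NormedSpace.exp (-X) := by rw [h, Matrix.mul_assoc, hJ, Matrix.mul_one]
  · intro h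
    rw [h] at hc
    calc NormedSpace.exp X * lorentz m * NormedSpace.exp X
        = NormedSpace.exp X * (lorentz m * NormedSpace.exp X * lorentz m) * lorentz m := by
          simp only [Matrix.mul_assoc]
          rw [hJ, Matrix.mul_one]
      _ = lorentz m := by rw [← hc, hinv', Matrix.one_mul]

/-- The symmetric matrix with first row `(0, v)`. -/
def off (m : ℕ) : (Fin m → ℝ) →ₗ[ℝ] Matrix (Fin (m + 1)) (Fin (m + 1)) ℝ where
  toFun v := Matrix.of fun i j => Fin.cases (Fin.cases 0 (fun j => v j) j)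
    (fun i => Fin.cases (v i) (fun _ => 0) j) i
  map_add' v w := by
    ext i j
    refine Fin.cases ?_ (fun i => ?_) i <;> refine Fin.cases ?_ (fun j => ?_) j <;> simp
  map_smul' t v := by
    ext i j
    refine Fin.cases ?_ (fun i => ?_) i <;> refine Fin.cases ?_ (fun j => ?_) j <;> simp

theorem off_zero_zero {m : ℕ} (v : Fin m → ℝ) : off m v 0 0 = 0 := rfl

theorem off_zero_succ {m : ℕ} (v : Fin m → ℝ) (j : Fin m) : off m v 0 j.succ = v j := rfl

theorem off_succ_zero {m : ℕ} (v : Fin m → ℝ) (i : Fin m) : off m v i.succ 0 = v i := rfl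

theorem off_succ_succ {m : ℕ} (v : Fin m → ℝ) (i j : Fin m) : off m v i.succ j.succ = 0 := rfl

theorem lorentz_conj {m : ℕ} (X : Matrix (Fin (m + 1)) (Fin (m + 1)) ℝ) (i j : Fin (m + 1)) :
    (lorentz m * X * lorentz m) i j =
      (Fin.cons (-1) (fun _ => 1) : Fin (m + 1) → ℝ) i * X i j *
        (Fin.cons (-1) (fun _ => 1) : Fin (m + 1) → ℝ) j := by
  rw [lorentz, mul_diagonal, diagonal_mul]

theorem mem_range_off {m : ℕ} {X : Matrix (Fin (m + 1)) (Fin (m + 1)) ℝ} :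
    X ∈ LinearMap.range (off m) ↔ Xᵀ = X ∧ lorentz m * X * lorentz m = -X := by
  constructor
  · rintro ⟨v, rfl⟩
    constructor
    · ext i j
      rw [transpose_apply]
      refine Fin.cases ?_ (fun i => ?_) i <;> refine Fin.cases ?_ (fun j => ?_) j <;> rfl
    · ext i j
      rw [lorentz_conj, neg_apply]
      refine Fin.cases ?_ (fun i => ?_) i <;> refine Fin.cases ?_ (fun j => ?_) j
      · rw [off_zero_zero]; simp
      · rw [off_zero_succ, Fin.cons_zero, Fin.cons_succ]; ring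
      · rw [off_succ_zero, Fin.cons_zero, Fin.cons_succ]; ring
      · rw [off_succ_succ]; simp
  · rintro ⟨hX, hJ⟩
    refine ⟨fun i => X 0 i.succ, ?_⟩
    have h1 : ∀ i j, (Fin.cons (-1) (fun _ => 1) : Fin (m + 1) → ℝ) i * X i j *
        (Fin.cons (-1) (fun _ => 1) : Fin (m + 1) → ℝ) j = -X i j := by
      intro i j
      rw [← lorentz_conj, hJ, neg_apply]
    ext i j
    refine Fin.cases ?_ (fun i => ?_) i <;> refine Fin.cases ?_ (fun j => ?_) j
    · have h2 := h1 0 0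
      rw [Fin.cons_zero] at h2
      rw [off_zero_zero]
      linarith
    · rw [off_zero_succ]
    · rw [off_succ_zero]
      exact congrFun (congrFun hX i.succ) 0
    · have h2 := h1 i.succ j.succ
      rw [Fin.cons_succ, Fin.cons_succ] at h2
      rw [off_succ_succ]
      linarith

theorem off_inj (m : ℕ) : Function.Injective (off m) := by
  intro v w h
  funext i
  have := congrFun (congrFun h 0) i.succ
  rwa [off_zero_succ, off_zero_succ] at this

theorem pSpace_O1 (m : ℕ) : pSpace (O1 m) = LinearMap.range (off m) := by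
  unfold pSpace
  have h : {X : Matrix (Fin (m + 1)) (Fin (m + 1)) ℝ | Xᵀ = X ∧ expGL X ∈ O1 m} =
      (LinearMap.range (off m) : Set (Matrix (Fin (m + 1)) (Fin (m + 1)) ℝ)) := by
    ext X
    rw [SetLike.mem_coe, mem_range_off]
    constructor
    · rintro ⟨h1, h2⟩
      exact ⟨h1, (exp_mem_O1 h1).mp h2⟩
    · rintro ⟨h1, h2⟩
      exact ⟨h1, (exp_mem_O1 h1).mpr h2⟩
  rw [h, Submodule.span_eq]

theorem finrank_pSpace_O1 (m : ℕ) : finrank ℝ (pSpace (O1 m)) = m := by
  rw [pSpace_O1, LinearMap.finrank_range_of_inj (off_inj m), Module.finrank_fin_fun]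

theorem isReductive_O1 (m : ℕ) : IsReductive (O1 m) := by
  refine ⟨?_, ?_, ?_⟩
  · have h1 : Continuous (fun g : GL (Fin (m + 1)) ℝ =>
        (g : Matrix (Fin (m + 1)) (Fin (m + 1)) ℝ)ᵀ * lorentz m *
          (g : Matrix (Fin (m + 1)) (Fin (m + 1)) ℝ)) :=
      ((Units.continuous_val.matrix_transpose).matrix_mul continuous_const).matrix_mul
        Units.continuous_val
    exact isClosed_singleton.preimage h1
  · intro g hg
    have h1 := mem_O1.mp hg
    have hJ := lorentz_sq m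
    have h2 : (lorentz m * (g : Matrix (Fin (m + 1)) (Fin (m + 1)) ℝ)ᵀ * lorentz m) *
        (g : Matrix (Fin (m + 1)) (Fin (m + 1)) ℝ) = 1 := by
      rw [Matrix.mul_assoc, Matrix.mul_assoc, ← Matrix.mul_assoc _ (lorentz m), h1, hJ]
    have h3 : (g : Matrix (Fin (m + 1)) (Fin (m + 1)) ℝ) *
        (lorentz m * (g : Matrix (Fin (m + 1)) (Fin (m + 1)) ℝ)ᵀ * lorentz m) = 1 :=
      mul_eq_one_comm.mp h2
    have h4 : (g : Matrix (Fin (m + 1)) (Fin (m + 1)) ℝ) * lorentz m *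
        (g : Matrix (Fin (m + 1)) (Fin (m + 1)) ℝ)ᵀ = lorentz m := by
      calc _ = ((g : Matrix (Fin (m + 1)) (Fin (m + 1)) ℝ) *
          (lorentz m * (g : Matrix (Fin (m + 1)) (Fin (m + 1)) ℝ)ᵀ * lorentz m)) * lorentz m := by
            simp only [Matrix.mul_assoc]
            rw [hJ, Matrix.mul_one]
        _ = lorentz m := by rw [h3, Matrix.one_mul]
    have h5 : (g : Matrix (Fin (m + 1)) (Fin (m + 1)) ℝ)ᵀ *
        ((g⁻¹ : GL _ ℝ) : Matrix (Fin (m + 1)) (Fin (m + 1)) ℝ)ᵀ = 1 := by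
      rw [← transpose_mul, ← Units.val_mul, inv_mul_cancel, Units.val_one, transpose_one]
    have h6 := mul_eq_one_comm.mp h5
    refine ⟨⟨(g : Matrix (Fin (m + 1)) (Fin (m + 1)) ℝ)ᵀ,
      ((g⁻¹ : GL _ ℝ) : Matrix (Fin (m + 1)) (Fin (m + 1)) ℝ)ᵀ, h5, h6⟩, ?_, rfl⟩
    rw [mem_O1]
    show ((g : Matrix (Fin (m + 1)) (Fin (m + 1)) ℝ)ᵀ)ᵀ * lorentz m *
      (g : Matrix (Fin (m + 1)) (Fin (m + 1)) ℝ)ᵀ = lorentz m
    rw [transpose_transpose, h4]
  · intro X hX hmem t
    have h1 := (exp_mem_O1 hX).mp hmem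
    refine (exp_mem_O1 ?_).mpr ?_
    · rw [transpose_smul, hX]
    · rw [Matrix.mul_smul, Matrix.smul_mul, h1, smul_neg]

/-- `O(1, m)`, `m ≥ 2`, has real rank one in the sense of the definitions. -/
theorem isRankOne_O1 {m : ℕ} (hm : 2 ≤ m) : IsRankOne (O1 m) := by
  refine ⟨?_, ?_⟩
  · intro X hX Y hY hXY hli
    rw [pSpace_O1] at hX hY
    obtain ⟨v, rfl⟩ := hX
    obtain ⟨w, rfl⟩ := hY
    have h1 : ∀ i j, v i * w j = w i * v j := by
      intro i j
      have h2 := congrFun (congrFun hXY i.succ) j.succ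
      rw [mul_apply, mul_apply, Fin.sum_univ_succ, Fin.sum_univ_succ] at h2
      simp only [off_succ_zero, off_zero_succ, off_succ_succ, mul_zero, Finset.sum_const_zero,
        add_zero] at h2
      exact h2
    rw [LinearIndependent.pair_iff] at hli
    by_cases hw : w = 0
    · have h3 := hli 0 1 (by rw [hw, map_zero, smul_zero, zero_smul, add_zero])
      exact one_ne_zero h3.2
    · obtain ⟨j, hj⟩ := Function.ne_iff.mp hw
      have h3 := hli (w j) (-(v j)) (by
        rw [← map_smul, ← map_smul, ← map_add]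
        have : w j • v + -(v j) • w = 0 := by
          funext i
          rw [Pi.add_apply, Pi.smul_apply, Pi.smul_apply, smul_eq_mul, smul_eq_mul, Pi.zero_apply]
          have := h1 i j
          linarith
        rw [this, map_zero])
      exact hj h3.1
  · rw [finrank_pSpace_O1]
    omega

end Pool.Agent.Helper40.CK
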