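import Pool.Agent.Helper40.CK.Defs

/-!
# A central vector factor: the projection and the chain argument
-/

namespace Pool.Agent.Helper40.CK

/-- A continuous homomorphism `Z` from `ℝ ^ k` to the centre of `G`. -/
structure ZData (G : Type) [Group G] [TopologicalSpace G] (k : ℕ) where
  Z : (Fin k → ℝ) → G
  Z_add : ∀ s t, Z (s + t) = Z s * Z t
  Z_cont : Continuous Z
  Z_comm : ∀ t g, Z t * g = g * Z t

/-- A continuous homomorphism `c : G → ℝ ^ k` with a continuous central section `Z`. -/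
structure VData (G : Type) [Group G] [TopologicalSpace G] (k : ℕ) extends ZData G k where
  c : G → (Fin k → ℝ)
  c_mul : ∀ g h, c (g * h) = c g + c h
  c_cont : Continuous c
  c_Z : ∀ t, c (Z t) = t

variable {G : Type} [Group G] [TopologicalSpace G] {k : ℕ}

namespace ZData

variable (D : ZData G k)

theorem Z_zero : D.Z 0 = 1 := by
  have h := D.Z_add 0 0
  rw [add_zero] at h
  exact (mul_eq_left.mp h.symm)

theorem Z_neg (t : Fin k → ℝ) : D.Z (-t) = (D.Z t)⁻¹ := by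
  rw [eq_inv_iff_mul_eq_one, ← D.Z_add, neg_add_cancel, D.Z_zero]

variable {H : Subgroup G}

theorem Z_smul_smul (s t : Fin k → ℝ) (x : G ⧸ H) : D.Z s • D.Z t • x = D.Z (s + t) • x := by
  rw [smul_smul, D.Z_add]

theorem Z_zero_smul (x : G ⧸ H) : D.Z 0 • x = x := by rw [D.Z_zero, one_smul]

theorem Z_smul_comm (t : Fin k → ℝ) (g : G) (x : G ⧸ H) : D.Z t • g • x = g • D.Z t • x := by
  rw [smul_smul, smul_smul, D.Z_comm]

theorem Z_neg_smul {t : Fin k → ℝ} {x y : G ⧸ H} (h : x = D.Z t • y) : y = D.Z (-t) • x := by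
  rw [h, D.Z_smul_smul, neg_add_cancel, D.Z_zero_smul]

/-- The thickening of a set in the direction of the vector factor. -/
def thick (r : ℝ) (K : Set (G ⧸ H)) : Set (G ⧸ H) :=
  (fun p : (Fin k → ℝ) × (G ⧸ H) => D.Z p.1 • p.2) '' (Metric.closedBall 0 r ×ˢ K)

theorem mem_thick {r : ℝ} {K : Set (G ⧸ H)} {x : G ⧸ H} {t : Fin k → ℝ} (ht : ‖t‖ ≤ r)
    (hx : x ∈ K) : D.Z t • x ∈ D.thick r K :=
  ⟨(t, x), ⟨by simpa using ht, hx⟩, rfl⟩

theorem subset_thick {r : ℝ} (hr : 0 ≤ r) {K : Set (G ⧸ H)} {x : G ⧸ H}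
    (hx : x ∈ K) : x ∈ D.thick r K := by
  have := D.mem_thick (t := 0) (r := r) (by simpa using hr) hx
  rwa [D.Z_zero_smul] at this

theorem thick_compact [IsTopologicalGroup G] {r : ℝ} {K : Set (G ⧸ H)} (hK : IsCompact K) :
    IsCompact (D.thick r K) := by
  apply ((isCompact_closedBall (0 : Fin k → ℝ) r).prod hK).image
  exact (D.Z_cont.comp continuous_fst).smul continuous_snd

variable {Γ : Subgroup G} {δ : Γ → (Fin k → ℝ)} (hδ : ∀ a b, δ (a * b) = δ a + δ b)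
  {K0 : Set (G ⧸ H)}

include hδ in
omit [TopologicalSpace G] in
theorem δ_inv (a : Γ) : δ a⁻¹ = - δ a := by
  have h1 : δ 1 = 0 := by
    have h := hδ 1 1
    rw [mul_one] at h
    have h2 := congrArg (fun t => t - δ 1) h
    simpa using h2.symm
  have h := hδ a⁻¹ a
  rw [inv_mul_cancel, h1] at h
  exact eq_neg_of_add_eq_zero_left h.symm

include hδ in
theorem chain (hcov : ∀ x : G ⧸ H, ∃ γ : Γ, (γ : G) • x ∈ K0)
    (hF : ∀ γ : Γ, (∃ x ∈ D.thick 1 K0, (γ : G) • x ∈ D.thick 1 K0) → ‖δ γ‖ ≤ 1 / 2) (n : ℕ) :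
    ∀ t : Fin k → ℝ, ‖t‖ ≤ n → ∀ (x : G ⧸ H) (γ γ' : Γ), (γ : G) • x ∈ K0 →
      (γ' : G) • D.Z t • x ∈ K0 → ‖δ (γ * γ'⁻¹)‖ ≤ ((n : ℝ) + 1) / 2 := by
  induction n with
  | zero =>
    intro t ht x γ γ' h1 h2
    have ht0 : t = 0 := by
      rw [Nat.cast_zero] at ht
      exact norm_le_zero_iff.mp ht
    rw [ht0, D.Z_zero_smul] at h2
    have h3 := hF (γ * γ'⁻¹) ⟨(γ' : G) • x, D.subset_thick zero_le_one h2, by
      have : ((γ * γ'⁻¹ : Γ) : G) • (γ' : G) • x = (γ : G) • x := by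
        rw [smul_smul]
        congr 1
        push_cast
        group
      rw [this]
      exact D.subset_thick zero_le_one h1⟩
    simpa using h3
  | succ n ih =>
    intro t ht x γ γ' h1 h2
    have hn : (0 : ℝ) < (n : ℝ) + 1 := by positivity
    push_cast at ht
    set t1 : Fin k → ℝ := ((n : ℝ) / (n + 1)) • t with ht1
    set t2 : Fin k → ℝ := (1 / ((n : ℝ) + 1)) • t with ht2
    have hsum : t2 + t1 = t := by
      rw [ht1, ht2, ← add_smul]
      have : 1 / ((n : ℝ) + 1) + (n : ℝ) / (n + 1) = 1 := by field_simp; ring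
      rw [this, one_smul]
    have hn1 : ‖t1‖ ≤ n := by
      rw [ht1, norm_smul, Real.norm_of_nonneg (by positivity)]
      calc (n : ℝ) / (n + 1) * ‖t‖ ≤ (n : ℝ) / (n + 1) * (n + 1) := by gcongr
        _ = n := by field_simp
    have hn2 : ‖t2‖ ≤ 1 := by
      rw [ht2, norm_smul, Real.norm_of_nonneg (by positivity)]
      calc 1 / ((n : ℝ) + 1) * ‖t‖ ≤ 1 / ((n : ℝ) + 1) * (n + 1) := by gcongr
        _ = 1 := by field_simp
    obtain ⟨γ'', h3⟩ := hcov (D.Z t1 • x)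
    have h4 := ih t1 hn1 x γ γ'' h1 h3
    have h5 : (γ' : G) • D.Z t1 • x ∈ D.thick 1 K0 := by
      have h6 : (γ' : G) • D.Z t • x = D.Z t2 • ((γ' : G) • D.Z t1 • x) := by
        rw [← hsum, ← D.Z_smul_smul, ← D.Z_smul_comm t2 (γ' : G)]
      rw [h6] at h2
      have h7 := D.Z_neg_smul (x := D.Z t2 • ((γ' : G) • D.Z t1 • x)) rfl
      rw [h7]
      exact D.mem_thick (by rwa [norm_neg]) h2
    have h8 := hF (γ'' * γ'⁻¹) ⟨(γ' : G) • D.Z t1 • x, h5, by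
      have : ((γ'' * γ'⁻¹ : Γ) : G) • (γ' : G) • D.Z t1 • x = (γ'' : G) • D.Z t1 • x := by
        rw [smul_smul]
        congr 1
        push_cast
        group
      rw [this]
      exact D.subset_thick zero_le_one h3⟩
    have h9 : δ (γ * γ'⁻¹) = δ (γ * γ''⁻¹) + δ (γ'' * γ'⁻¹) := by
      rw [← hδ]
      congr 1
      group
    rw [h9]
    push_cast
    have := norm_add_le (δ (γ * γ''⁻¹)) (δ (γ'' * γ'⁻¹))
    linarith

include hδ in
/-- Linear control of a small homomorphism `δ` by the translation length in the vector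
direction. -/
theorem linear [IsTopologicalGroup G] (hprop : ∀ K : Set (G ⧸ H), IsCompact K →
      {γ : G | γ ∈ Γ ∧ ∃ x ∈ K, γ • x ∈ K}.Finite) (hK0 : IsCompact K0)
    (hcov : ∀ x : G ⧸ H, ∃ γ : Γ, (γ : G) • x ∈ K0)
    (hF : ∀ γ : Γ, (∃ x ∈ D.thick 1 K0, (γ : G) • x ∈ D.thick 1 K0) → ‖δ γ‖ ≤ 1 / 2)
    {K : Set (G ⧸ H)} (hK : IsCompact K) :
    ∃ C : ℝ, 0 ≤ C ∧ ∀ (γ : Γ) (x y : G ⧸ H) (t : Fin k → ℝ), x ∈ K → y ∈ K →
      (γ : G) • x = D.Z t • y → ‖δ γ‖ ≤ ‖t‖ / 2 + C := by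
  have hfin : {γ : Γ | ∃ x ∈ K, (γ : G) • x ∈ K0}.Finite := by
    refine Set.Finite.of_finite_image (f := fun γ : Γ => (γ : G))
      ((finite_two hprop hK hK0).subset ?_) (fun a _ b _ hab => Subtype.ext hab)
    rintro _ ⟨γ, hγ, rfl⟩
    exact ⟨γ.2, hγ⟩
  obtain ⟨C1, hC1⟩ := (hfin.image fun γ => ‖δ γ‖).bddAbove
  have hC1' : ∀ γ : Γ, (∃ x ∈ K, (γ : G) • x ∈ K0) → ‖δ γ‖ ≤ max C1 0 := fun γ hγ =>
    (hC1 ⟨γ, hγ, rfl⟩).trans (le_max_left _ _)
  refine ⟨1 + 2 * max C1 0, by positivity, ?_⟩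
  intro γ x y t hx hy hxy
  obtain ⟨a, ha⟩ := hcov y
  obtain ⟨b, hb⟩ := hcov x
  have h1 : ((b * γ⁻¹ : Γ) : G) • D.Z t • y ∈ K0 := by
    rw [← hxy, smul_smul]
    have : ((b * γ⁻¹ : Γ) : G) * (γ : G) = b := by push_cast; group
    rw [this]
    exact hb
  have h2 := D.chain hδ hcov hF ⌈‖t‖⌉₊ t (Nat.le_ceil _) y a (b * γ⁻¹) ha h1
  have h3 : (⌈‖t‖⌉₊ : ℝ) < ‖t‖ + 1 := Nat.ceil_lt_add_one (norm_nonneg _)
  have h4 : a * (b * γ⁻¹)⁻¹ = a * γ * b⁻¹ := by group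
  rw [h4, hδ, hδ, δ_inv hδ] at h2
  have h5 := hC1' a ⟨y, hy, ha⟩
  have h6 := hC1' b ⟨x, hx, hb⟩
  have h7 : δ γ = (δ a + δ γ + -δ b) - δ a + δ b := by abel
  have h8 : ‖δ γ‖ ≤ ‖δ a + δ γ + -δ b‖ + ‖δ a‖ + ‖δ b‖ := by
    calc ‖δ γ‖ = ‖(δ a + δ γ + -δ b) - δ a + δ b‖ := by rw [← h7]
      _ ≤ ‖(δ a + δ γ + -δ b) - δ a‖ + ‖δ b‖ := norm_add_le _ _
      _ ≤ ‖δ a + δ γ + -δ b‖ + ‖δ a‖ + ‖δ b‖ := by
        gcongr
        exact norm_sub_le _ _
  linarith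

end ZData

namespace VData

variable (D : VData G k)

theorem c_one : D.c 1 = 0 := by
  have h := D.c_mul 1 1
  rw [mul_one] at h
  have h2 := congrArg (fun t => t - D.c 1) h
  simpa using h2.symm

theorem c_inv (g : G) : D.c g⁻¹ = - D.c g := by
  have h := D.c_mul g⁻¹ g
  rw [inv_mul_cancel, D.c_one] at h
  exact eq_neg_of_add_eq_zero_left h.symm

variable {H : Subgroup G} (hH : ∀ h ∈ H, D.c h = 0)

/-- The map `G ⧸ H → ℝ ^ k` induced by `c`. -/
def q (x : G ⧸ H) : Fin k → ℝ :=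
  Quotient.liftOn' x D.c (by
    intro a b hab
    have h := hH _ (QuotientGroup.leftRel_apply.mp hab)
    rw [D.c_mul, D.c_inv] at h
    exact (neg_add_eq_zero.mp h))

theorem q_mk (g : G) : D.q hH (g : G ⧸ H) = D.c g := rfl

theorem q_smul (g : G) (x : G ⧸ H) : D.q hH (g • x) = D.c g + D.q hH x := by
  induction x using QuotientGroup.induction_on with
  | H a => exact D.c_mul g a

theorem q_cont : Continuous (D.q hH) :=
  D.c_cont.quotient_liftOn' _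

end VData

end Pool.Agent.Helper40.CK
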