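import Pool.Agent.Helper40.CK.Proj

/-!
# From `Γ ≤ G` to a cocompact discontinuous group of `S ⧸ H`
-/

namespace Pool.Agent.Helper40.CK

namespace VData

variable {G : Type} [Group G] [TopologicalSpace G] [IsTopologicalGroup G] {k : ℕ} (D : VData G k)
  {S : Subgroup G} (hS : ∀ g, g ∈ S ↔ D.c g = 0) {H : Subgroup G} (hH : ∀ h ∈ H, D.c h = 0)
  {Γ : Subgroup G} {δ : Γ → (Fin k → ℝ)} (hδ : ∀ a b, δ (a * b) = δ a + δ b)
  {K0 : Set (G ⧸ H)}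

/-- The kernel of the perturbed homomorphism `c + δ`. -/
def ker (hδ : ∀ a b, δ (a * b) = δ a + δ b) : Subgroup Γ where
  carrier := {γ | D.c (γ : G) + δ γ = 0}
  mul_mem' := by
    intro a b ha hb
    simp only [Set.mem_ofPred_eq] at *
    rw [Subgroup.coe_mul, D.c_mul, hδ]
    calc D.c a + D.c b + (δ a + δ b) = (D.c a + δ a) + (D.c b + δ b) := by abel
      _ = 0 := by rw [ha, hb, add_zero]
  one_mem' := by
    have h1 : δ 1 = 0 := by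
      have h := hδ 1 1
      rw [mul_one] at h
      have h2 := congrArg (fun t => t - δ 1) h
      simpa using h2.symm
    simp only [Set.mem_ofPred_eq, Subgroup.coe_one, D.c_one, h1, add_zero]
  inv_mem' := by
    intro a ha
    simp only [Set.mem_ofPred_eq] at *
    rw [Subgroup.coe_inv, D.c_inv, ZData.δ_inv hδ, ← neg_add, ha, neg_zero]

omit [IsTopologicalGroup G] in
theorem mem_ker (γ : Γ) : γ ∈ D.ker hδ ↔ D.c (γ : G) + δ γ = 0 := Iff.rfl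

section

variable (hprop : ∀ K : Set (G ⧸ H), IsCompact K →
      {γ : G | γ ∈ Γ ∧ ∃ x ∈ K, γ • x ∈ K}.Finite) (hK0 : IsCompact K0)
    (hcov : ∀ x : G ⧸ H, ∃ γ : Γ, (γ : G) • x ∈ K0)
    (hF : ∀ γ : Γ, (∃ x ∈ D.thick 1 K0, (γ : G) • x ∈ D.thick 1 K0) → ‖δ γ‖ ≤ 1 / 2)

include hδ hprop hK0 hcov hF

theorem bound {K : Set (S ⧸ H.subgroupOf S)} (hK : IsCompact K) :
    ∃ C : ℝ, 0 ≤ C ∧ ∀ (γ : Γ) (x : S ⧸ H.subgroupOf S), x ∈ K → D.hat hS (γ : G) • x ∈ K →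
      ‖δ γ‖ ≤ ‖D.c (γ : G)‖ / 2 + C := by
  obtain ⟨C, hC0, hC⟩ := D.linear hδ hprop hK0 hcov hF (hK.image jmap_cont)
  exact ⟨C, hC0, fun γ x hx hy => hC γ (jmap x) (jmap (D.hat hS (γ : G) • x)) _
    ⟨x, hx, rfl⟩ ⟨_, hy, rfl⟩ (D.smul_jmap hS _ x)⟩

theorem bound_ker {K : Set (S ⧸ H.subgroupOf S)} (hK : IsCompact K) :
    ∃ C : ℝ, 0 ≤ C ∧ ∀ γ ∈ D.ker hδ, ∀ x ∈ K, D.hat hS ((γ : Γ) : G) • x ∈ K →
      ‖D.c ((γ : Γ) : G)‖ ≤ C := by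
  obtain ⟨C, hC0, hC⟩ := D.bound hS hδ hprop hK0 hcov hF hK
  refine ⟨2 * C, by linarith, fun γ hγ x hx hy => ?_⟩
  have h1 := hC γ x hx hy
  have h2 : D.c (γ : G) = - δ γ := eq_neg_of_add_eq_zero_left ((D.mem_ker hδ γ).mp hγ)
  have h3 : ‖D.c (γ : G)‖ = ‖δ γ‖ := by rw [h2, norm_neg]
  linarith

theorem proper_ker {K : Set (S ⧸ H.subgroupOf S)} (hK : IsCompact K) :
    {γ : Γ | γ ∈ D.ker hδ ∧ ∃ x ∈ K, D.hat hS (γ : G) • x ∈ K}.Finite := by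
  obtain ⟨C, hC0, hC⟩ := D.bound_ker hS hδ hprop hK0 hcov hF hK
  have hfin := finite_two hprop (hK.image jmap_cont)
    (D.thick_compact (r := C) (hK.image jmap_cont))
  refine Set.Finite.of_finite_image (f := fun γ : Γ => (γ : G)) (hfin.subset ?_)
    (fun a _ b _ hab => Subtype.ext hab)
  rintro _ ⟨γ, ⟨hγ, x, hx, hy⟩, rfl⟩
  refine ⟨γ.2, jmap x, ⟨x, hx, rfl⟩, ?_⟩
  have h1 := D.mem_thick (hC γ hγ x hx hy) (Set.mem_image_of_mem jmap hy)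
  rwa [← D.smul_jmap hS] at h1

theorem free_ker (hfree : ∀ γ ∈ Γ, ∀ x : G ⧸ H, γ • x = x → γ = 1) {γ : Γ}
    (hγ : γ ∈ D.ker hδ) {y : S ⧸ H.subgroupOf S} (hy : D.hat hS (γ : G) • y = y) : γ = 1 := by
  obtain ⟨C, hC0, hC⟩ := D.bound_ker hS hδ hprop hK0 hcov hF (isCompact_singleton (x := y))
  have hfix : ∀ n : ℕ, D.hat hS ((γ ^ n : Γ) : G) • y = y := by
    intro n
    induction n with
    | zero => simp
    | succ n ih => rw [pow_succ, Subgroup.coe_mul, map_mul, mul_smul, hy, ih]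
  have hc : ∀ n : ℕ, D.c ((γ ^ n : Γ) : G) = (n : ℝ) • D.c (γ : G) := by
    intro n
    induction n with
    | zero => simp [D.c_one]
    | succ n ih =>
      rw [pow_succ, Subgroup.coe_mul, D.c_mul, ih]
      push_cast
      rw [add_smul, one_smul]
  have h0 : D.c (γ : G) = 0 := by
    by_contra hne
    have hpos : 0 < ‖D.c (γ : G)‖ := norm_pos_iff.mpr hne
    obtain ⟨n, hn⟩ := exists_nat_gt (C / ‖D.c (γ : G)‖)
    have h1 := hC (γ ^ n) (Subgroup.pow_mem _ hγ n) y rfl (by rw [hfix]; rfl)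
    rw [hc, norm_smul, Real.norm_natCast] at h1
    rw [div_lt_iff₀ hpos] at hn
    linarith
  have h2 : (γ : G) • (jmap y : G ⧸ H) = jmap y := by
    rw [D.smul_jmap hS, h0, D.Z_zero_smul, hy]
  exact Subtype.ext (hfree γ γ.2 _ h2)

include hH in
/-- The values of `c + δ` on the elements which keep `y` in a compact set are cobounded. -/
theorem cobounded : ∃ R1 : ℝ, ∀ (y : S ⧸ H.subgroupOf S) (w : Fin k → ℝ), ∃ γ : Γ,
    ‖D.c (γ : G) + δ γ + w‖ ≤ R1 ∧ D.hat hS (γ : G) • y ∈ D.pmap hS hH '' K0 := by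
  have hKX : IsCompact (D.pmap hS hH '' K0) := hK0.image (D.pmap_cont hS hH)
  obtain ⟨R, hR⟩ := (hK0.image (D.q_cont hH).norm).bddAbove
  set R0 := max R 0 with hR0
  have hR' : ∀ x ∈ K0, ‖D.q hH x‖ ≤ R0 := fun x hx =>
    (hR ⟨x, hx, rfl⟩).trans (le_max_left _ _)
  have hR00 : 0 ≤ R0 := le_max_right _ _
  have star : ∀ (y : S ⧸ H.subgroupOf S) (w : Fin k → ℝ), ∃ γ : Γ,
      ‖D.c (γ : G) + w‖ ≤ R0 ∧ D.hat hS (γ : G) • y ∈ D.pmap hS hH '' K0 := by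
    intro y w
    obtain ⟨γ, hγ⟩ := hcov (D.Z w • jmap y)
    refine ⟨γ, ?_, ⟨_, hγ, ?_⟩⟩
    · have h1 := hR' _ hγ
      rwa [D.q_smul, D.q_smul, D.c_Z, D.q_jmap hS hH, add_zero] at h1
    · rw [D.pmap_smul, D.pmap_Z, D.pmap_jmap]
  obtain ⟨C, hC0, hC⟩ := D.bound hS hδ hprop hK0 hcov hF hKX
  refine ⟨3 * R0 + 2 * C + 2, fun y w => ?_⟩
  set A : Set ℝ := {r | ∃ γ : Γ, D.hat hS (γ : G) • y ∈ D.pmap hS hH '' K0 ∧
    r = ‖D.c (γ : G) + δ γ + w‖} with hA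
  have hAne : A.Nonempty := by
    obtain ⟨γ, -, h⟩ := star y 0
    exact ⟨_, γ, h, rfl⟩
  have hAbdd : BddBelow A := ⟨0, by rintro r ⟨γ, -, rfl⟩; exact norm_nonneg _⟩
  obtain ⟨r, ⟨γ1, h1, rfl⟩, hr⟩ := exists_lt_of_csInf_lt hAne (lt_add_one (sInf A))
  set u := D.c (γ1 : G) + δ γ1 + w with hu
  obtain ⟨γ2, h2, h3⟩ := star y (u - D.c (γ1 : G))
  have h4 : sInf A ≤ ‖D.c (γ2 : G) + δ γ2 + w‖ := csInf_le hAbdd ⟨γ2, h3, rfl⟩
  set β : Γ := γ2 * γ1⁻¹ with hβ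
  have hβγ : β * γ1 = γ2 := by rw [hβ]; group
  have hcβ : D.c (γ2 : G) = D.c (β : G) + D.c (γ1 : G) := by
    rw [← hβγ, Subgroup.coe_mul, D.c_mul]
  have hδβ : δ γ2 = δ β + δ γ1 := by rw [← hβγ, hδ]
  have h5 : D.hat hS (β : G) • D.hat hS (γ1 : G) • y ∈ D.pmap hS hH '' K0 := by
    rw [smul_smul, ← map_mul, ← Subgroup.coe_mul, hβγ]
    exact h3
  have h6 := hC β _ h1 h5
  set e := D.c (γ2 : G) + (u - D.c (γ1 : G)) with he
  have h7 : D.c (β : G) = e - u := by rw [he, hcβ]; abel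
  have h8 : D.c (γ2 : G) + δ γ2 + w = e + δ β := by
    rw [he, hδβ, hu]; abel
  have h9 : ‖D.c (β : G)‖ ≤ ‖e‖ + ‖u‖ := by rw [h7]; exact norm_sub_le _ _
  have h10 : ‖D.c (γ2 : G) + δ γ2 + w‖ ≤ ‖e‖ + ‖δ β‖ := by rw [h8]; exact norm_add_le _ _
  refine ⟨γ1, ?_, h1⟩
  linarith

include hH in
/-- The kernel of `c + δ` acts cocompactly on `S ⧸ H` if `c + δ` has discrete values. -/
theorem cocompact_ker
    (hdisc : ∀ R : ℝ, {t : Fin k → ℝ | ‖t‖ ≤ R ∧ ∃ γ : Γ, D.c (γ : G) + δ γ = t}.Finite) :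
    ∃ K : Set (S ⧸ H.subgroupOf S), IsCompact K ∧ ∀ y, ∃ γ ∈ D.ker hδ,
      D.hat hS ((γ : Γ) : G) • y ∈ K := by
  classical
  obtain ⟨R1, hR1⟩ := D.cobounded hS hH hδ hprop hK0 hcov hF
  have hKX : IsCompact (D.pmap hS hH '' K0) := hK0.image (D.pmap_cont hS hH)
  have hch : ∀ t : Fin k → ℝ, ∃ g : Γ, (∃ γ : Γ, D.c (γ : G) + δ γ = t) →
      D.c (g : G) + δ g = t := by
    intro t
    by_cases h : ∃ γ : Γ, D.c (γ : G) + δ γ = t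
    · obtain ⟨γ, hγ⟩ := h
      exact ⟨γ, fun _ => hγ⟩
    · exact ⟨1, fun h' => absurd h' h⟩
  choose g hg using hch
  refine ⟨⋃ t ∈ {t : Fin k → ℝ | ‖t‖ ≤ R1 ∧ ∃ γ : Γ, D.c (γ : G) + δ γ = t},
    (fun x => (D.hat hS (g t : G))⁻¹ • x) '' (D.pmap hS hH '' K0),
    (hdisc R1).isCompact_biUnion fun t _ => hKX.image (continuous_const_smul _), fun y => ?_⟩
  obtain ⟨γ1, h1, h2⟩ := hR1 y 0
  rw [add_zero] at h1
  set t := D.c (γ1 : G) + δ γ1 with ht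
  have hgt := hg t ⟨γ1, rfl⟩
  refine ⟨(g t)⁻¹ * γ1, ?_, ?_⟩
  · rw [D.mem_ker, Subgroup.coe_mul, D.c_mul, hδ, Subgroup.coe_inv, D.c_inv, ZData.δ_inv hδ]
    calc -D.c (g t : G) + D.c (γ1 : G) + (-δ (g t) + δ γ1)
        = (D.c (γ1 : G) + δ γ1) - (D.c (g t : G) + δ (g t)) := by abel
      _ = 0 := by rw [hgt, ← ht, sub_self]
  · simp only [Set.mem_iUnion]
    refine ⟨t, ⟨h1, γ1, rfl⟩, D.hat hS (γ1 : G) • y, h2, ?_⟩
    show (D.hat hS (g t : G))⁻¹ • D.hat hS (γ1 : G) • y = _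
    rw [smul_smul, Subgroup.coe_mul, map_mul, Subgroup.coe_inv, map_inv]

end

end VData

end Pool.Agent.Helper40.CK
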