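import Pool.Agent.Helper40.CK.Main

/-!
# The reduction theorem: both directions
-/

namespace Pool.Agent.Helper40.CK

namespace VData

variable {G : Type} [Group G] [TopologicalSpace G] [IsTopologicalGroup G] [LocallyCompactSpace G]
  [T2Space G] {k : ℕ} (D : VData G k)
  {S : Subgroup G} (hS : ∀ g, g ∈ S ↔ D.c g = 0) {H : Subgroup G} (hH : ∀ h ∈ H, D.c h = 0)

include hH in
/-- The structure of the cocompact discontinuous groups of `G ⧸ H`. -/
theorem structure_of [Finite (ConnectedComponents (G ⧸ H))] {Γ : Subgroup G}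
    (hΓ : IsCocompactDiscontinuousGroup Γ H) :
    ∃ φ : Γ →* Multiplicative (Fin k → ℤ), Function.Surjective φ ∧
      (∀ γ ∈ φ.ker, D.hat hS ((γ : Γ) : G) = 1 → γ = 1) ∧
      IsCocompactDiscontinuousGroup (φ.ker.map ((D.hat hS).comp Γ.subtype))
        (H.subgroupOf S) := by
  classical
  have hprop := hΓ.proper
  obtain ⟨K0, hK0, hcov'⟩ := compact_iff.mp hΓ.compact
  have hcov : ∀ x : G ⧸ H, ∃ γ : Γ, (γ : G) • x ∈ K0 := fun x => by
    obtain ⟨γ, hγ, h⟩ := hcov' x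
    exact ⟨⟨γ, hγ⟩, h⟩
  have hfg := fg_of_cocompact hprop hK0 hcov
  have hF0 : {γ : Γ | ∃ x ∈ D.thick 1 K0, (γ : G) • x ∈ D.thick 1 K0}.Finite := by
    refine Set.Finite.of_finite_image (f := fun γ : Γ => (γ : G))
      ((hprop _ (D.thick_compact (r := 1) hK0)).subset ?_) (fun a _ b _ hab => Subtype.ext hab)
    rintro _ ⟨γ, hγ, rfl⟩
    exact ⟨γ.2, hγ⟩
  obtain ⟨δ, N, hδ, hN, hsmall, hval⟩ := D.exists_delta hfg _ hF0
  have hF : ∀ γ : Γ, (∃ x ∈ D.thick 1 K0, (γ : G) • x ∈ D.thick 1 K0) → ‖δ γ‖ ≤ 1 / 2 :=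
    fun γ hγ => hsmall γ hγ
  obtain ⟨R, hR⟩ := D.cobounded hS hH hδ hprop hK0 hcov hF
  obtain ⟨φ, hφ, hker⟩ := D.quot_iso hδ hN hval (R := R) fun w => by
    obtain ⟨γ, h, -⟩ := hR ((1 : S) : S ⧸ H.subgroupOf S) w
    exact ⟨γ, h⟩
  have hinj : ∀ γ ∈ φ.ker, D.hat hS ((γ : Γ) : G) = 1 → γ = 1 := by
    intro γ hγ h1
    rw [hker] at hγ
    exact D.free_ker hS hδ hprop hK0 hcov hF hΓ.free hγ
      (y := ((1 : S) : S ⧸ H.subgroupOf S)) (by rw [h1, one_smul])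
  have : LocallyCompactSpace S := (D.S_closed hS).locallyCompactSpace
  have hpropS : ∀ K : Set (S ⧸ H.subgroupOf S), IsCompact K →
      {s : S | s ∈ φ.ker.map ((D.hat hS).comp Γ.subtype) ∧ ∃ x ∈ K, s • x ∈ K}.Finite := by
    intro K hK
    refine ((D.proper_ker hS hδ hprop hK0 hcov hF hK).image
      (fun γ : Γ => D.hat hS (γ : G))).subset ?_
    rintro s ⟨⟨γ, hγ, rfl⟩, x, hx, hy⟩
    exact ⟨γ, ⟨by rw [← hker]; exact hγ, x, hx, hy⟩, rfl⟩
  refine ⟨φ, hφ, hinj, ⟨⟨discrete_of_proper hpropS, ?_, hpropS⟩, ?_⟩⟩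
  · rintro s ⟨γ, hγ, rfl⟩ x hx
    have hγ' : γ ∈ D.ker hδ := by rw [← hker]; exact hγ
    have h1 : γ = 1 := D.free_ker hS hδ hprop hK0 hcov hF hΓ.free hγ' hx
    rw [h1, map_one]
  · rw [compact_iff]
    obtain ⟨K, hK, hKcov⟩ := D.cocompact_ker hS hH hδ hprop hK0 hcov hF
      (D.disc_of_rational hN hval)
    refine ⟨K, hK, fun y => ?_⟩
    obtain ⟨γ, hγ, h⟩ := hKcov y
    exact ⟨D.hat hS ((γ : Γ) : G), ⟨γ, by rw [hker]; exact hγ, rfl⟩, h⟩

include hS hH in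
/-- The product of a cocompact discontinuous group of `S ⧸ H` with `ℤ ^ k`. -/
theorem product_of {Γ1 : Subgroup S} (hΓ : IsCocompactDiscontinuousGroup Γ1 (H.subgroupOf S)) :
    AdmitsCocompact H := by
  classical
  have : LocallyCompactSpace S := (D.S_closed hS).locallyCompactSpace
  obtain ⟨K1, hK1, hcov1⟩ := compact_iff.mp hΓ.compact
  let Γ : Subgroup G :=
    { carrier := {g | D.hat hS g ∈ Γ1 ∧ ∃ n : Fin k → ℤ, D.c g = fun i => (n i : ℝ)}
      mul_mem' := by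
        rintro a b ⟨ha, n, hn⟩ ⟨hb, m, hm⟩
        refine ⟨by rw [map_mul]; exact Γ1.mul_mem ha hb, n + m, ?_⟩
        rw [D.c_mul, hn, hm]
        funext i
        simp
      one_mem' := ⟨by rw [map_one]; exact Γ1.one_mem, 0, by rw [D.c_one]; funext i; simp⟩
      inv_mem' := by
        rintro a ⟨ha, n, hn⟩
        refine ⟨by rw [map_inv]; exact Γ1.inv_mem ha, -n, ?_⟩
        rw [D.c_inv, hn]
        funext i
        simp }
  have hmem : ∀ g, g ∈ Γ ↔ D.hat hS g ∈ Γ1 ∧ ∃ n : Fin k → ℤ, D.c g = fun i => (n i : ℝ) :=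
    fun g => Iff.rfl
  have hprop : ∀ K : Set (G ⧸ H), IsCompact K →
      {γ : G | γ ∈ Γ ∧ ∃ x ∈ K, γ • x ∈ K}.Finite := by
    intro K hK
    have hfin1 := hΓ.proper _ (hK.image (D.pmap_cont hS hH))
    obtain ⟨R, hR⟩ := (hK.image (D.q_cont hH).norm).bddAbove
    have hfin2 : (Set.univ.pi fun _ : Fin k => Set.Icc (-⌈2 * R⌉) ⌈2 * R⌉).Finite :=
      Set.Finite.pi fun _ => Set.finite_Icc _ _
    refine ((hfin1.prod hfin2).image fun p : S × (Fin k → ℤ) =>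
      (p.1 : G) * D.Z (fun i => (p.2 i : ℝ))).subset ?_
    rintro γ ⟨hγ, x, hx, hy⟩
    obtain ⟨h1, n, hn⟩ := (hmem γ).mp hγ
    refine ⟨(D.hat hS γ, n), ⟨⟨h1, D.pmap hS hH x, ⟨x, hx, rfl⟩, ?_⟩, ?_⟩, ?_⟩
    · rw [← D.pmap_smul]
      exact ⟨_, hy, rfl⟩
    · rw [Set.mem_pi]
      intro i _
      have h2 : ‖D.q hH x‖ ≤ R := hR ⟨x, hx, rfl⟩
      have h3 : ‖D.q hH (γ • x)‖ ≤ R := hR ⟨_, hy, rfl⟩
      have h4 : D.c γ = D.q hH (γ • x) - D.q hH x := by rw [D.q_smul]; abel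
      have h5 : ‖D.c γ‖ ≤ 2 * R := by
        rw [h4]
        have := norm_sub_le (D.q hH (γ • x)) (D.q hH x)
        linarith
      have h6 := (norm_le_pi_norm (D.c γ) i).trans h5
      rw [hn, Real.norm_eq_abs] at h6
      have h7 := abs_le.mp h6
      have h8 : (2 * R : ℝ) ≤ ⌈2 * R⌉ := Int.le_ceil _
      rw [Set.mem_Icc]
      constructor
      · have : (-(⌈2 * R⌉ : ℤ) : ℝ) ≤ n i := by linarith [h7.1]
        exact_mod_cast this
      · have : (n i : ℝ) ≤ (⌈2 * R⌉ : ℤ) := h7.2.trans h8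
        exact_mod_cast this
    · show (D.hat hS γ : G) * D.Z (fun i => (n i : ℝ)) = γ
      rw [← hn, ← D.eq_hat hS]
  refine ⟨Γ, ⟨⟨discrete_of_proper hprop, ?_, hprop⟩, ?_⟩⟩
  · intro γ hγ x hx
    obtain ⟨h1, n, hn⟩ := (hmem γ).mp hγ
    have h2 : D.c γ = 0 := by
      have h3 := congrArg (D.q hH) hx
      rw [D.q_smul] at h3
      exact add_eq_right.mp h3
    have h4 : D.hat hS γ • D.pmap hS hH x = D.pmap hS hH x := by
      rw [← D.pmap_smul, hx]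
    have h5 := hΓ.free _ h1 _ h4
    rw [D.eq_hat hS γ, h5, h2, D.Z_zero, mul_one, Subgroup.coe_one]
  · rw [compact_iff]
    refine ⟨D.thick 1 (jmap '' K1), D.thick_compact (hK1.image jmap_cont), fun x => ?_⟩
    obtain ⟨s, hs, hsx⟩ := hcov1 (D.pmap hS hH x)
    let n : Fin k → ℤ := fun i => -⌊D.q hH x i⌋
    refine ⟨(s : G) * D.Z (fun i => (n i : ℝ)), ?_, ?_⟩
    · rw [hmem]
      refine ⟨?_, n, ?_⟩
      · rw [map_mul, D.hat_Z, mul_one, D.hat_S]
        exact hs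
      · rw [D.c_mul, D.c_Z, (hS _).mp s.2, zero_add]
    · have h1 : ((s : G) * D.Z (fun i => (n i : ℝ))) • x =
          D.Z ((fun i => (n i : ℝ)) + D.q hH x) • jmap (s • D.pmap hS hH x) := by
        conv_lhs => rw [D.eq_jmap hS hH x]
        rw [← smul_smul, D.Z_smul_smul, jmap_smul, ← D.Z_smul_comm]
      rw [h1]
      apply D.mem_thick
      · rw [pi_norm_le_iff_of_nonneg zero_le_one]
        intro i
        have h2 := Int.floor_le (D.q hH x i)
        have h3 := Int.lt_floor_add_one (D.q hH x i)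
        rw [Pi.add_apply, Real.norm_eq_abs, abs_le]
        simp only [n, Int.cast_neg]
        constructor <;> linarith
      · exact ⟨_, hsx, rfl⟩

end VData

end Pool.Agent.Helper40.CK
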