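import Pool.Agent.Helper40.CK.Approx

/-!
# The reduction theorem
-/

namespace Pool.Agent.Helper40.CK

namespace VData

variable {G : Type} [Group G] [TopologicalSpace G] [IsTopologicalGroup G] [LocallyCompactSpace G]
  {k : ℕ} (D : VData G k)
  {S : Subgroup G} (hS : ∀ g, g ∈ S ↔ D.c g = 0) {H : Subgroup G} (hH : ∀ h ∈ H, D.c h = 0)

omit [IsTopologicalGroup G] in
include hS in
theorem S_closed : IsClosed (S : Set G) := by
  have : (S : Set G) = D.c ⁻¹' {0} := by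
    ext g
    exact hS g
  rw [this]
  exact isClosed_singleton.preimage D.c_cont

/-- The perturbation `δ`: `c + δ` has values in `(1 / N) ℤ ^ k` and `δ` is small on a finite
set. -/
theorem exists_delta {Γ : Subgroup G} (hfg : Group.FG Γ) (F : Set Γ) (hF : F.Finite) :
    ∃ (δ : Γ → (Fin k → ℝ)) (N : ℕ), (∀ a b, δ (a * b) = δ a + δ b) ∧ 1 ≤ N ∧
      (∀ γ ∈ F, ‖δ γ‖ ≤ 1 / 2) ∧
      ∀ (γ : Γ) (i : Fin k), ∃ m : ℤ, (D.c (γ : G) + δ γ) i = m / N := by
  let f : Γ →* Multiplicative (Fin k → ℝ) :=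
    { toFun := fun γ => Multiplicative.ofAdd (D.c (γ : G))
      map_one' := by
        show Multiplicative.ofAdd (D.c ((1 : Γ) : G)) = 1
        rw [Subgroup.coe_one, D.c_one]
        rfl
      map_mul' := fun a b => by
        show Multiplicative.ofAdd (D.c ((a * b : Γ) : G)) = _
        rw [Subgroup.coe_mul, D.c_mul]
        rfl }
  let g : Additive Γ →+ (Fin k → ℝ) := MonoidHom.toAdditiveLeft f
  have hA : g.range.FG := by
    rw [← AddGroup.fg_iff_addSubgroup_fg]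
    exact AddGroup.fg_range g
  have hmem : ∀ γ : Γ, D.c (γ : G) ∈ g.range := fun γ => ⟨Additive.ofMul γ, rfl⟩
  obtain ⟨lam, N, hN, hlam, hval⟩ := approx g.range hA
    ((fun γ : Γ => (⟨D.c (γ : G), hmem γ⟩ : g.range)) '' F) (hF.image _)
  refine ⟨fun γ => lam ⟨D.c (γ : G), hmem γ⟩ - D.c (γ : G), N, ?_, hN, ?_, ?_⟩
  · intro a b
    have h1 : (⟨D.c ((a * b : Γ) : G), hmem (a * b)⟩ : g.range) =
        ⟨D.c (a : G), hmem a⟩ + ⟨D.c (b : G), hmem b⟩ := by
      apply Subtype.ext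
      show D.c ((a * b : Γ) : G) = D.c (a : G) + D.c (b : G)
      rw [Subgroup.coe_mul, D.c_mul]
    show lam ⟨D.c ((a * b : Γ) : G), hmem (a * b)⟩ - D.c ((a * b : Γ) : G) = _
    rw [h1, map_add, Subgroup.coe_mul, D.c_mul]
    exact add_sub_add_comm _ _ _ _
  · intro γ hγ
    exact hlam _ ⟨γ, hγ, rfl⟩
  · intro γ i
    obtain ⟨m, hm⟩ := hval ⟨D.c (γ : G), hmem γ⟩ i
    refine ⟨m, ?_⟩
    rw [← hm]
    simp

omit [IsTopologicalGroup G] [LocallyCompactSpace G] in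
theorem disc_of_rational {Γ : Subgroup G} {δ : Γ → (Fin k → ℝ)} {N : ℕ} (hN : 1 ≤ N)
    (hval : ∀ (γ : Γ) (i : Fin k), ∃ m : ℤ, (D.c (γ : G) + δ γ) i = m / N) (R : ℝ) :
    {t : Fin k → ℝ | ‖t‖ ≤ R ∧ ∃ γ : Γ, D.c (γ : G) + δ γ = t}.Finite := by
  have hN0 : (0 : ℝ) < N := by exact_mod_cast hN
  have hfin : (Set.univ.pi fun _ : Fin k => Set.Icc (-⌈R * N⌉) ⌈R * N⌉).Finite :=
    Set.Finite.pi fun _ => Set.finite_Icc _ _
  refine (hfin.image fun m : Fin k → ℤ => fun i => (m i : ℝ) / N).subset ?_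
  rintro t ⟨ht, γ, rfl⟩
  choose m hm using hval γ
  refine ⟨m, ?_, ?_⟩
  · rw [Set.mem_pi]
    intro i _
    have h1 := norm_le_pi_norm (D.c (γ : G) + δ γ) i
    rw [hm i, Real.norm_eq_abs, abs_div, abs_of_pos hN0] at h1
    have h2 : |(m i : ℝ)| ≤ R * N := by
      rw [← div_le_iff₀ hN0]
      exact h1.trans ht
    have h3 := abs_le.mp h2
    have h4 : (R * N : ℝ) ≤ ⌈R * N⌉ := Int.le_ceil _
    rw [Set.mem_Icc]
    constructor
    · have : (-(⌈R * N⌉ : ℤ) : ℝ) ≤ m i := by linarith [h3.1]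
      exact_mod_cast this
    · have : (m i : ℝ) ≤ (⌈R * N⌉ : ℤ) := h3.2.trans h4
      exact_mod_cast this
  · funext i
    exact (hm i).symm

/-- The values of `c + δ` form a group isomorphic to `ℤ ^ k`. -/
theorem quot_iso {Γ : Subgroup G} {δ : Γ → (Fin k → ℝ)} (hδ : ∀ a b, δ (a * b) = δ a + δ b)
    {N : ℕ} (hN : 1 ≤ N)
    (hval : ∀ (γ : Γ) (i : Fin k), ∃ m : ℤ, (D.c (γ : G) + δ γ) i = m / N) {R : ℝ}
    (hR : ∀ w : Fin k → ℝ, ∃ γ : Γ, ‖D.c (γ : G) + δ γ + w‖ ≤ R) :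
    ∃ φ : Γ →* Multiplicative (Fin k → ℤ), Function.Surjective φ ∧ φ.ker = D.ker hδ := by
  classical
  have hN0 : (0 : ℝ) < N := by exact_mod_cast hN
  choose m hm using hval
  have hm' : ∀ γ i, (m γ i : ℝ) = N * (D.c (γ : G) + δ γ) i := by
    intro γ i
    rw [hm]
    field_simp
  have hadd : ∀ a b, m (a * b) = m a + m b := by
    intro a b
    funext i
    have h1 : (m (a * b) i : ℝ) = (m a i : ℝ) + m b i := by
      rw [hm', hm', hm', Subgroup.coe_mul, D.c_mul, hδ]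
      simp only [Pi.add_apply]
      ring
    rw [Pi.add_apply]
    exact_mod_cast h1
  let μ : Additive Γ →+ (Fin k → ℤ) := AddMonoidHom.mk' (fun γ => m (Additive.toMul γ))
    (fun a b => hadd _ _)
  let M : Submodule ℤ (Fin k → ℤ) := AddSubgroup.toIntSubmodule μ.range
  have hMmem : ∀ γ : Γ, m γ ∈ M := fun γ => ⟨Additive.ofMul γ, rfl⟩
  -- finite quotient
  have hfinq : Finite ((Fin k → ℤ) ⧸ M) := by
    have hb : (Set.univ.pi fun _ : Fin k => Set.Icc (-⌈N * R⌉) ⌈N * R⌉).Finite :=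
      Set.Finite.pi fun _ => Set.finite_Icc _ _
    have : Finite ↥(Set.univ.pi fun _ : Fin k => Set.Icc (-⌈N * R⌉) ⌈N * R⌉) := hb
    refine Finite.of_surjective (fun z : ↥(Set.univ.pi fun _ : Fin k =>
      Set.Icc (-⌈N * R⌉) ⌈N * R⌉) => (Submodule.Quotient.mk (z : Fin k → ℤ) : _ ⧸ M)) ?_
    intro x
    obtain ⟨z, rfl⟩ := Submodule.Quotient.mk_surjective M x
    obtain ⟨γ, hγ⟩ := hR fun i => -(z i : ℝ) / N
    refine ⟨⟨z - m γ, ?_⟩, ?_⟩
    · rw [Set.mem_pi]
      intro i _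
      have h1 := (norm_le_pi_norm _ i).trans hγ
      have h2 : (D.c (γ : G) + δ γ + fun i => -(z i : ℝ) / N) i = ((m γ i : ℝ) - z i) / N := by
        show (D.c (γ : G) + δ γ) i + -(z i : ℝ) / N = _
        rw [hm]
        ring
      rw [h2, Real.norm_eq_abs, abs_div, abs_of_pos hN0, div_le_iff₀ hN0, abs_sub_comm] at h1
      have h3 := abs_le.mp h1
      have h4 : (N * R : ℝ) ≤ ⌈N * R⌉ := Int.le_ceil _
      rw [Set.mem_Icc, Pi.sub_apply]
      constructor
      · have : (-(⌈N * R⌉ : ℤ) : ℝ) ≤ (z i : ℝ) - m γ i := by linarith [h3.1]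
        exact_mod_cast this
      · have : (z i : ℝ) - m γ i ≤ (⌈N * R⌉ : ℤ) := by linarith [h3.2]
        exact_mod_cast this
    · show (Submodule.Quotient.mk (z - m γ) : _ ⧸ M) = Submodule.Quotient.mk z
      rw [Submodule.Quotient.eq]
      have : z - m γ - z = - m γ := by abel
      rw [this]
      exact M.neg_mem (hMmem γ)
  have hrank : Module.finrank ℤ M = k := by
    have h1 := (Submodule.finiteQuotient_iff M).mp hfinq
    rw [h1, Module.finrank_fin_fun]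
  let e : M ≃ₗ[ℤ] (Fin k → ℤ) := (Module.finBasisOfFinrankEq ℤ M hrank).equivFun
  refine ⟨AddMonoidHom.toMultiplicativeRight
    ((e.toAddEquiv.toAddMonoidHom).comp (μ.codRestrict M.toAddSubgroup fun γ => hMmem _)),
    ?_, ?_⟩
  · intro t
    obtain ⟨⟨y, γ, hγ⟩, hy⟩ := e.surjective (Multiplicative.toAdd t)
    refine ⟨Additive.toMul γ, ?_⟩
    have h1 : (⟨m (Additive.toMul γ), hMmem _⟩ : M) = ⟨y, γ, hγ⟩ := Subtype.ext hγ
    show Multiplicative.ofAdd (e ⟨m (Additive.toMul γ), hMmem _⟩) = t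
    rw [h1, hy]
    rfl
  · ext γ
    rw [MonoidHom.mem_ker, D.mem_ker]
    have h0 : (AddMonoidHom.toMultiplicativeRight
      ((e.toAddEquiv.toAddMonoidHom).comp (μ.codRestrict M.toAddSubgroup fun γ => hMmem _))) γ =
        Multiplicative.ofAdd (e ⟨m γ, hMmem _⟩) := rfl
    rw [h0, ofAdd_eq_one, map_eq_zero_iff e e.injective]
    constructor
    · intro h
      have h1 : m γ = 0 := congrArg Subtype.val h
      funext i
      have h2 := hm γ i
      rw [h1] at h2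
      simpa using h2
    · intro h
      apply Subtype.ext
      show m γ = 0
      funext i
      have h2 := hm' γ i
      rw [h] at h2
      have h3 : (m γ i : ℝ) = 0 := by simpa using h2
      exact_mod_cast h3

end VData

end Pool.Agent.Helper40.CK
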