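import Pool.Agent.Helper40.CK.Coarse

/-!
# The projection of `G ⧸ H` to `S ⧸ H`
-/

namespace Pool.Agent.Helper40.CK

namespace VData

variable {G : Type} [Group G] [TopologicalSpace G] {k : ℕ} (D : VData G k)
  {S : Subgroup G} (hS : ∀ g, g ∈ S ↔ D.c g = 0) {H : Subgroup G} (hH : ∀ h ∈ H, D.c h = 0)

/-- The projection `G → S`, `g ↦ g Z (- c g)`. -/
def hat : G →* S where
  toFun g := ⟨g * D.Z (-D.c g), by rw [hS, D.c_mul, D.c_Z, add_neg_cancel]⟩
  map_one' := by
    apply Subtype.ext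
    show (1 : G) * D.Z (-D.c 1) = 1
    rw [D.c_one, neg_zero, D.Z_zero, one_mul]
  map_mul' g h := by
    apply Subtype.ext
    show (g * h) * D.Z (-D.c (g * h)) = (g * D.Z (-D.c g)) * (h * D.Z (-D.c h))
    rw [D.c_mul, neg_add, D.Z_add]
    calc g * h * (D.Z (-D.c g) * D.Z (-D.c h)) = g * (h * D.Z (-D.c g)) * D.Z (-D.c h) := by
          simp only [mul_assoc]
      _ = g * (D.Z (-D.c g) * h) * D.Z (-D.c h) := by rw [D.Z_comm]
      _ = g * D.Z (-D.c g) * (h * D.Z (-D.c h)) := by simp only [mul_assoc]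

theorem hat_val (g : G) : ((D.hat hS g : S) : G) = g * D.Z (-D.c g) := rfl

theorem hat_cont [ContinuousMul G] : Continuous (D.hat hS) := by
  apply Continuous.subtype_mk
  exact continuous_id.mul (D.Z_cont.comp D.c_cont.neg)

theorem hat_Z (t : Fin k → ℝ) : D.hat hS (D.Z t) = 1 := by
  apply Subtype.ext
  show D.Z t * D.Z (-D.c (D.Z t)) = 1
  rw [D.c_Z, ← D.Z_add, add_neg_cancel, D.Z_zero]

theorem hat_S (s : S) : D.hat hS (s : G) = s := by
  apply Subtype.ext
  show (s : G) * D.Z (-D.c (s : G)) = s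
  rw [(hS _).mp s.2, neg_zero, D.Z_zero, mul_one]

theorem eq_hat (g : G) : g = (D.hat hS g : G) * D.Z (D.c g) := by
  rw [hat_val, mul_assoc, ← D.Z_add, neg_add_cancel, D.Z_zero, mul_one]

/-- The inclusion `S ⧸ H → G ⧸ H`. -/
def jmap : (S ⧸ H.subgroupOf S) → G ⧸ H :=
  Quotient.map' (fun s : S => (s : G)) (by
    intro a b hab
    have h := QuotientGroup.leftRel_apply.mp hab
    exact QuotientGroup.leftRel_apply.mpr h)

omit [TopologicalSpace G] in
theorem jmap_mk (s : S) : (jmap (s : S ⧸ H.subgroupOf S) : G ⧸ H) = ((s : G) : G ⧸ H) := rfl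

omit [TopologicalSpace G] in
theorem jmap_smul (s : S) (y : S ⧸ H.subgroupOf S) : jmap (s • y) = (s : G) • jmap y := by
  induction y using QuotientGroup.induction_on with
  | H a => rfl

theorem jmap_cont : Continuous (jmap : (S ⧸ H.subgroupOf S) → G ⧸ H) :=
  continuous_subtype_val.quotient_map' _

/-- The projection `G ⧸ H → S ⧸ H`. -/
def pmap : G ⧸ H → (S ⧸ H.subgroupOf S) :=
  Quotient.map' (D.hat hS) (by
    intro a b hab
    have h := QuotientGroup.leftRel_apply.mp hab
    apply QuotientGroup.leftRel_apply.mpr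
    rw [Subgroup.mem_subgroupOf, ← map_inv, ← map_mul, hat_val, hH _ h, neg_zero, D.Z_zero,
      mul_one]
    exact h)

theorem pmap_smul (g : G) (x : G ⧸ H) : D.pmap hS hH (g • x) = D.hat hS g • D.pmap hS hH x := by
  induction x using QuotientGroup.induction_on with
  | H a =>
    show ((D.hat hS (g * a) : S) : S ⧸ H.subgroupOf S) = ((D.hat hS g * D.hat hS a : S) : _)
    rw [map_mul]

theorem pmap_cont [ContinuousMul G] : Continuous (D.pmap hS hH) :=
  (D.hat_cont hS).quotient_map' _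

theorem pmap_Z (t : Fin k → ℝ) (x : G ⧸ H) : D.pmap hS hH (D.Z t • x) = D.pmap hS hH x := by
  rw [pmap_smul, hat_Z, one_smul]

theorem pmap_jmap (y : S ⧸ H.subgroupOf S) : D.pmap hS hH (jmap y) = y := by
  induction y using QuotientGroup.induction_on with
  | H a =>
    show ((D.hat hS (a : G) : S) : S ⧸ H.subgroupOf S) = (a : _)
    rw [hat_S]

theorem eq_jmap (x : G ⧸ H) : x = D.Z (D.q hH x) • jmap (D.pmap hS hH x) := by
  induction x using QuotientGroup.induction_on with
  | H a =>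
    show (a : G ⧸ H) = ((D.Z (D.c a) * (D.hat hS a : G) : G) : G ⧸ H)
    rw [D.Z_comm, ← D.eq_hat hS]

include hS in
theorem q_jmap (y : S ⧸ H.subgroupOf S) : D.q hH (jmap y) = 0 := by
  induction y using QuotientGroup.induction_on with
  | H a => exact (hS _).mp a.2

theorem smul_jmap (g : G) (y : S ⧸ H.subgroupOf S) :
    g • jmap y = D.Z (D.c g) • jmap (D.hat hS g • y) := by
  rw [jmap_smul, smul_smul, D.Z_comm, ← D.eq_hat hS]

end VData

end Pool.Agent.Helper40.CK
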