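import Pool.Agent.Helper40.CK.Coarse

/-!
# Stability of cocompact discontinuous groups under small central deformations
-/

namespace Pool.Agent.Helper40.CK

namespace ZData

variable {G : Type} [Group G] [TopologicalSpace G] [IsTopologicalGroup G] {k : ℕ} (D : ZData G k)
  {H Γ : Subgroup G} {δ : Γ → (Fin k → ℝ)} (hδ : ∀ a b, δ (a * b) = δ a + δ b)
  {K0 : Set (G ⧸ H)}

/-- The deformed homomorphism `γ ↦ γ Z (δ γ)`. -/
def twist (hδ : ∀ a b, δ (a * b) = δ a + δ b) : Γ →* G where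
  toFun γ := (γ : G) * D.Z (δ γ)
  map_one' := by
    have h1 : δ 1 = 0 := by
      have h := hδ 1 1
      rw [mul_one] at h
      have h2 := congrArg (fun t => t - δ 1) h
      simpa using h2.symm
    show ((1 : Γ) : G) * D.Z (δ 1) = 1
    rw [h1, D.Z_zero, mul_one, Subgroup.coe_one]
  map_mul' a b := by
    show ((a * b : Γ) : G) * D.Z (δ (a * b)) = (a : G) * D.Z (δ a) * ((b : G) * D.Z (δ b))
    rw [hδ, D.Z_add, Subgroup.coe_mul]
    calc (a : G) * b * (D.Z (δ a) * D.Z (δ b)) = (a : G) * (b * D.Z (δ a)) * D.Z (δ b) := by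
          simp only [mul_assoc]
      _ = (a : G) * (D.Z (δ a) * b) * D.Z (δ b) := by rw [D.Z_comm]
      _ = (a : G) * D.Z (δ a) * (b * D.Z (δ b)) := by simp only [mul_assoc]

omit [IsTopologicalGroup G] in
theorem twist_apply (γ : Γ) : D.twist hδ γ = (γ : G) * D.Z (δ γ) := rfl

omit [IsTopologicalGroup G] in
theorem twist_smul (γ : Γ) (x : G ⧸ H) : D.twist hδ γ • x = D.Z (δ γ) • (γ : G) • x := by
  rw [twist_apply, smul_smul, D.Z_comm]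

variable (hprop : ∀ K : Set (G ⧸ H), IsCompact K →
      {γ : G | γ ∈ Γ ∧ ∃ x ∈ K, γ • x ∈ K}.Finite) (hK0 : IsCompact K0)
    (hcov : ∀ x : G ⧸ H, ∃ γ : Γ, (γ : G) • x ∈ K0)
    (hF : ∀ γ : Γ, (∃ x ∈ D.thick 1 K0, (γ : G) • x ∈ D.thick 1 K0) → ‖δ γ‖ ≤ 1 / 2)

include hprop hK0 hcov hF

theorem twist_bound {K : Set (G ⧸ H)} (hK : IsCompact K) :
    ∃ C : ℝ, 0 ≤ C ∧ ∀ γ : Γ, ∀ x ∈ K, D.twist hδ γ • x ∈ K → ‖δ γ‖ ≤ C := by
  obtain ⟨C, hC0, hC⟩ := D.linear hδ hprop hK0 hcov hF hK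
  refine ⟨2 * C, by linarith, fun γ x hx hy => ?_⟩
  have h1 : (γ : G) • x = D.Z (-δ γ) • (D.twist hδ γ • x) :=
    D.Z_neg_smul (by rw [twist_smul])
  have h2 := hC γ x _ _ hx hy h1
  rw [norm_neg] at h2
  linarith

theorem twist_proper {K : Set (G ⧸ H)} (hK : IsCompact K) :
    {γ : G | γ ∈ (D.twist hδ).range ∧ ∃ x ∈ K, γ • x ∈ K}.Finite := by
  obtain ⟨C, hC0, hC⟩ := D.twist_bound hδ hprop hK0 hcov hF hK
  have hfin := finite_two hprop hK (D.thick_compact (r := C) hK)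
  have hfin2 : {γ : Γ | ∃ x ∈ K, D.twist hδ γ • x ∈ K}.Finite := by
    refine Set.Finite.of_finite_image (f := fun γ : Γ => (γ : G)) (hfin.subset ?_)
      (fun a _ b _ hab => Subtype.ext hab)
    rintro _ ⟨γ, ⟨x, hx, hy⟩, rfl⟩
    refine ⟨γ.2, x, hx, ?_⟩
    have h1 : (γ : G) • x = D.Z (-δ γ) • (D.twist hδ γ • x) :=
      D.Z_neg_smul (by rw [twist_smul])
    show (γ : G) • x ∈ _
    rw [h1]
    exact D.mem_thick (by rw [norm_neg]; exact hC γ x hx hy) hy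
  refine (hfin2.image fun γ : Γ => D.twist hδ γ).subset ?_
  rintro _ ⟨⟨γ, rfl⟩, x, hx, hy⟩
  exact ⟨γ, ⟨x, hx, hy⟩, rfl⟩

theorem twist_free (hfree : ∀ γ ∈ Γ, ∀ x : G ⧸ H, γ • x = x → γ = 1) {γ : Γ} {y : G ⧸ H}
    (hy : D.twist hδ γ • y = y) : γ = 1 := by
  obtain ⟨C, hC0, hC⟩ := D.twist_bound hδ hprop hK0 hcov hF (isCompact_singleton (x := y))
  have hfix : ∀ n : ℕ, D.twist hδ (γ ^ n) • y = y := by
    intro n
    induction n with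
    | zero => simp
    | succ n ih => rw [pow_succ, map_mul, mul_smul, hy, ih]
  have h1 : δ 1 = 0 := by
    have h := hδ 1 1
    rw [mul_one] at h
    have h2 := congrArg (fun t => t - δ 1) h
    simpa using h2.symm
  have hc : ∀ n : ℕ, δ (γ ^ n) = (n : ℝ) • δ γ := by
    intro n
    induction n with
    | zero => simp [h1]
    | succ n ih =>
      rw [pow_succ, hδ, ih]
      push_cast
      rw [add_smul, one_smul]
  have h0 : δ γ = 0 := by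
    by_contra hne
    have hpos : 0 < ‖δ γ‖ := norm_pos_iff.mpr hne
    obtain ⟨n, hn⟩ := exists_nat_gt (C / ‖δ γ‖)
    have h1 := hC (γ ^ n) y rfl (by rw [hfix]; rfl)
    rw [hc, norm_smul, Real.norm_natCast] at h1
    rw [div_lt_iff₀ hpos] at hn
    linarith
  rw [twist_smul, h0, D.Z_zero_smul] at hy
  exact Subtype.ext (hfree γ γ.2 _ hy)

omit hprop hK0 [IsTopologicalGroup G] in
theorem twist_cocompact (x : G ⧸ H) : ∃ γ : Γ, D.twist hδ γ • x ∈ D.thick 4 K0 := by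
  set A : Set ℝ := {r | ∃ (t : Fin k → ℝ) (γ : Γ), (γ : G) • D.Z t • x ∈ K0 ∧ r = ‖t - δ γ‖}
    with hA
  have hAne : A.Nonempty := by
    obtain ⟨γ, h⟩ := hcov (D.Z 0 • x)
    exact ⟨_, 0, γ, h, rfl⟩
  have hAbdd : BddBelow A := ⟨0, by rintro r ⟨t, γ, -, rfl⟩; exact norm_nonneg _⟩
  obtain ⟨r, ⟨t1, γ1, h1, rfl⟩, hr⟩ := exists_lt_of_csInf_lt hAne (lt_add_one (sInf A))
  obtain ⟨γ2, h2⟩ := hcov (D.Z (δ γ1) • x)
  have h3 : sInf A ≤ ‖δ γ1 - δ γ2‖ := csInf_le hAbdd ⟨δ γ1, γ2, h2, rfl⟩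
  have h4 : (γ2 : G) • D.Z (δ γ1 - t1) • D.Z t1 • x ∈ K0 := by
    rw [D.Z_smul_smul, sub_add_cancel]
    exact h2
  have h5 := D.chain hδ hcov hF ⌈‖δ γ1 - t1‖⌉₊ (δ γ1 - t1) (Nat.le_ceil _) (D.Z t1 • x) γ1 γ2 h1 h4
  have h6 : (⌈‖δ γ1 - t1‖⌉₊ : ℝ) < ‖δ γ1 - t1‖ + 1 := Nat.ceil_lt_add_one (norm_nonneg _)
  have h7 : δ (γ1 * γ2⁻¹) = δ γ1 - δ γ2 := by rw [hδ, δ_inv hδ]; abel
  rw [h7] at h5
  have h8 : ‖δ γ1 - t1‖ = ‖t1 - δ γ1‖ := norm_sub_rev _ _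
  refine ⟨γ1, ?_⟩
  have h9 : D.twist hδ γ1 • x = D.Z (δ γ1 - t1) • ((γ1 : G) • D.Z t1 • x) := by
    rw [twist_smul, D.Z_smul_comm, D.Z_smul_comm, D.Z_smul_smul, sub_add_cancel]
  rw [h9]
  apply D.mem_thick _ h1
  linarith

end ZData

end Pool.Agent.Helper40.CK
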